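import Pool.Agent.R318.ST.Fin2

/-! # Averages over the primes of functions of the residues of several random integers: general theorems -/

set_option autoImplicit false

namespace Pool.Agent.R318.SU

open Finset Filter Pool.Agent.R318.PR Pool.Agent.R459.Eq Pool.Agent.H730R2.AA Pool.Agent.R318.ST

/-- one bounded function -/
theorem gen_one (b : ℕ) (hb : 2 ≤ b) (η : ℝ) (hη : 0 < η) (hη1 : η ≤ 1) : ∃ W : ℕ, 1 ≤ W ∧
    ∀ (d : ℕ) (κ : Fin d → ℤ), (∀ j, κ j ≠ 0) → ∀ q : ℕ, q ≠ 0 → ∀ (Y : ℕ → (Fin d → ℤ) → ℝ) (B : ℝ), 0 < B →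
    (∀ p v, |Y p v| ≤ B) → ∀ (Yg : (p : ℕ) → [Fact p.Prime] → (Fin d → ZMod p) → ℝ),
    (∀ (p : ℕ) [Fact p.Prime], ¬ p ∣ q → ∀ v : Fin d → ℤ, Y p v = Yg p (fun j => ((v j : ℤ) : ZMod p))) → ∀ c : ℝ,
    (∀ ε : ℝ, 0 < ε → ∃ p₀ : ℕ, ∀ (p : ℕ) [Fact p.Prime], p₀ ≤ p → |av (Yg p) - c| ≤ ε) → ∀ ε : ℝ, 0 < ε →
    ∃ (C : ℝ) (X₀ : ℕ), 0 < C ∧ 2 ≤ X₀ ∧ ∀ k X : ℕ, X₀ ≤ X → ∀ (c₀ : Fin d → ℤ) (u : Fin d → ℕ → ℕ → ℝ),
    (∀ j, Dist b k η (u j)) →
    PrV b k u (fun g => ∃ x : ℕ, X ≤ x ∧ x ^ W ≤ b ^ k ∧ ε * (Nat.primeCounting x : ℝ) <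
      |∑ p ∈ (range (x + 1)).filter Nat.Prime, Y p (fun j => c₀ j + κ j * (dval b (g j) : ℕ)) -
        c * (Nat.primeCounting x : ℝ)|) ≤ C * (Real.log X / X) := by
  classical
  obtain ⟨W, hW, h⟩ := digits_SM b hb η hη hη1
  refine ⟨2 * W, by omega, fun d κ hκ q hq Y B hB0 hYB Yg hY c hlim ε hε => ?_⟩
  obtain ⟨C, hC, hSM⟩ := h d κ hκ
  obtain ⟨M, hM⟩ : ∃ M, M = b * q := ⟨_, rfl⟩
  have hM0 : M ≠ 0 := by
    rw [hM]
    exact mul_ne_zero (by omega) hq
  have hbM : b ∣ M := ⟨q, hM⟩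
  have hqM : ∀ p : ℕ, ¬ p ∣ M → ¬ p ∣ q := fun p hp h => hp (hM ▸ h.mul_left b)
  obtain ⟨μ, hμ⟩ : ∃ μ : ℕ → ℝ, μ = fun p => meanV d p (Y p) := ⟨_, rfl⟩
  have hμav : ∀ (p : ℕ) [Fact p.Prime], ¬ p ∣ M → μ p = av (Yg p) := by
    intro p hF hd
    rw [hμ]
    exact meanV_av d p _ _ fun a => hY p (hqM p hd) a
  have hμB : ∀ (p : ℕ), p.Prime → |μ p| ≤ B := by
    intro p hp
    have hp0 : (0 : ℝ) < p := by exact_mod_cast hp.pos
    rw [hμ]
    simp only
    unfold meanV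
    rw [abs_div, abs_of_pos (pow_pos hp0 _), div_le_iff₀ (pow_pos hp0 _)]
    refine (abs_sum_le_sum_abs _ _).trans ?_
    refine (sum_le_card_nsmul _ _ B fun t _ => hYB p _).trans (le_of_eq ?_)
    rw [Fintype.card_piFinset, prod_const, card_univ, Fintype.card_fin, card_range, nsmul_eq_mul]
    push_cast
    ring
  have hc : ∀ ε : ℝ, 0 < ε → ∃ X : ℕ, ∀ x : ℕ, X ≤ x →
      |∑ p ∈ GP M x, μ p - c * Nat.primeCounting x| ≤ ε * Nat.primeCounting x := by
    apply avg_lim M μ (fun _ => c) c (B + |c|) (by positivity)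
    · intro p hp _
      refine (abs_sub _ _).trans ?_
      linarith [hμB p hp]
    · intro ε' hε'
      obtain ⟨p₀, hp₀⟩ := hlim ε' hε'
      refine ⟨p₀, fun p hp hd hpp => ?_⟩
      have hF : Fact p.Prime := ⟨hp⟩
      rw [hμav p hd]
      exact hp₀ p hpp
    · intro ε' hε'
      obtain ⟨X2, hX24, hX2⟩ := small_ev (|c| * (M.primeFactors.card : ℝ)) ε' hε'
      refine ⟨X2, fun x hx => ?_⟩
      have h7 := hX2 x hx
      have h8 : 0 ≤ Real.log x := Real.log_nonneg (by exact_mod_cast (by omega : 1 ≤ x))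
      have h1 := GP_card_le M x
      have h2 := GP_card_ge M hM0 x
      have h3 : ∑ _p ∈ GP M x, c - c * Nat.primeCounting x = c * ((GP M x).card - Nat.primeCounting x) := by
        rw [sum_const, nsmul_eq_mul]
        ring
      rw [h3, abs_mul]
      have h4 : |((GP M x).card : ℝ) - Nat.primeCounting x| ≤ M.primeFactors.card := by
        rw [abs_le]
        constructor <;> linarith
      have h5 := mul_le_mul_of_nonneg_left h4 (abs_nonneg c)
      linarith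
  obtain ⟨C', X₀, hC', hX₀, H⟩ := absSum b W M C hC hW hM0 B hB0 μ c hc ε hε
  refine ⟨C', X₀, hC', hX₀, fun k X hX c₀ u hu => ?_⟩
  unfold PrV
  refine H k X hX (Fin d → Fin k → ℕ) (Fintype.piFinset (fun _ : Fin d => arrays b k))
    (fun g => ∏ j, wt (u j) (g j)) (fun p g => Y p (fun j => c₀ j + κ j * (dval b (g j) : ℕ)))
    (fun p g => hYB p _) ?_ _ (filter_subset _ _) (fun g hg => (mem_filter.1 hg).2)
  have h1 := hSM M hbM k c₀ u hu (fun p a => (Y p a / B + 1) / 2) (fun p a => by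
    have h2 := abs_le.1 (hYB p a)
    have h3 : -1 ≤ Y p a / B := by
      rw [le_div_iff₀ hB0]
      linarith
    have h4 : Y p a / B ≤ 1 := by
      rw [div_le_one hB0]
      exact h2.2
    constructor <;> linarith) (fun p hp hd a a' haa => by
    have hF : Fact p.Prime := ⟨hp⟩
    have h2 : (fun j => ((a j : ℤ) : ZMod p)) = (fun j => ((a' j : ℤ) : ZMod p)) := by
      funext j
      exact ((ZMod.intCast_eq_intCast_iff_dvd_sub _ _ p).2 (by
        have := haa j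
        rw [← neg_sub]
        exact (dvd_neg).2 this))
    simp only
    rw [hY p (hqM p hd), hY p (hqM p hd), h2])
  refine SM_congr (fun p hp hd => ?_) h1
  rw [meanV_lin d p hp.one_le B, hμ]

open Classical in
/-- the primes up to `x` that are good for `v` -/
noncomputable def gset {d : ℕ} (good : ℕ → (Fin d → ℤ) → Prop) (v : Fin d → ℤ) (x : ℕ) : Finset ℕ :=
  (range (x + 1)).filter (fun p => good p v)

/-- the averages over the good primes of finitely many functions are close to their limits, at every `x` -/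
def CloseG {d : ℕ} {σ : Type} (S : Finset σ) (good : ℕ → (Fin d → ℤ) → Prop) (val : σ → ℕ → (Fin d → ℤ) → ℝ) (c : σ → ℝ)
    (ε : ℝ) (X W N : ℕ) (v : Fin d → ℤ) : Prop :=
  ∀ x : ℕ, X ≤ x → x ^ W ≤ N → (1 - ε) * (Nat.primeCounting x : ℝ) ≤ (gset good v x).card ∧
    ∀ s ∈ S, |∑ p ∈ gset good v x, val s p v - c s * (gset good v x).card| ≤ ε * (gset good v x).card

open Classical in
/-- finitely many functions -/
theorem gen_all (b : ℕ) (hb : 2 ≤ b) (η : ℝ) (hη : 0 < η) : ∃ W : ℕ, 1 ≤ W ∧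
    ∀ (d : ℕ) (κ : Fin d → ℤ), (∀ j, κ j ≠ 0) → ∀ q : ℕ, q ≠ 0 → ∀ (σ : Type) (S : Finset σ)
    (good : ℕ → (Fin d → ℤ) → Prop) (val : σ → ℕ → (Fin d → ℤ) → ℝ) (B : σ → ℝ), (∀ p v, good p v → p.Prime) →
    (∀ s ∈ S, ∀ p v, good p v → |val s p v| ≤ B s) →
    ∀ (goodg : (p : ℕ) → [Fact p.Prime] → (Fin d → ZMod p) → Prop) (valg : σ → (p : ℕ) → [Fact p.Prime] → (Fin d → ZMod p) → ℝ),
    (∀ (p : ℕ) [Fact p.Prime], ¬ p ∣ q → ∀ v : Fin d → ℤ, good p v ↔ goodg p (fun j => ((v j : ℤ) : ZMod p))) →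
    (∀ s ∈ S, ∀ (p : ℕ) [Fact p.Prime], ¬ p ∣ q → ∀ v : Fin d → ℤ, good p v → val s p v = valg s p (fun j => ((v j : ℤ) : ZMod p))) →
    (∀ ε : ℝ, 0 < ε → ∃ p₀ : ℕ, ∀ (p : ℕ) [Fact p.Prime], p₀ ≤ p →
      |av (fun w : Fin d → ZMod p => if goodg p w then (1 : ℝ) else 0) - 1| ≤ ε) → ∀ c : σ → ℝ,
    (∀ s ∈ S, ∀ ε : ℝ, 0 < ε → ∃ p₀ : ℕ, ∀ (p : ℕ) [Fact p.Prime], p₀ ≤ p →
      |av (fun w : Fin d → ZMod p => if goodg p w then valg s p w else 0) - c s| ≤ ε) → ∀ ε : ℝ, 0 < ε →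
    ∃ (C : ℝ) (X₀ : ℕ), ∀ k X : ℕ, X₀ ≤ X → ∀ (c₀ : Fin d → ℤ) (u : Fin d → ℕ → ℕ → ℝ),
    (∀ j, Dist b k η (u j)) →
    PrV b k u (fun g => ¬ CloseG S good val c ε X W (b ^ k) (fun j => c₀ j + κ j * (dval b (g j) : ℕ))) ≤ C * (Real.log X / X) := by
  obtain ⟨W, hW, H⟩ := gen_one b hb (min η 1) (lt_min hη one_pos) (min_le_right _ _)
  refine ⟨W, hW, fun d κ hκ q hq σ S good val B hgp hB goodg valg hg hv hlim0 c hlim ε hε => ?_⟩
  obtain ⟨A, hA⟩ : ∃ A : ℝ, A = ∑ s ∈ S, |c s| := ⟨_, rfl⟩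
  have hA0 : 0 ≤ A := by rw [hA]; exact sum_nonneg fun _ _ => abs_nonneg _
  have hAs : ∀ s ∈ S, |c s| ≤ A := by
    intro s hs
    rw [hA]
    exact single_le_sum (f := fun s => |c s|) (fun _ _ => abs_nonneg _) hs
  obtain ⟨ε₀, hε₀⟩ : ∃ ε₀ : ℝ, ε₀ = min (1 / 2) (min ε (ε / (4 * (A + 1)))) := ⟨_, rfl⟩
  have h0 : 0 < ε₀ := by rw [hε₀]; exact lt_min (by norm_num) (lt_min hε (by positivity))
  have h01 : ε₀ ≤ 1 / 2 := by rw [hε₀]; exact min_le_left _ _
  have h02 : ε₀ ≤ ε := by rw [hε₀]; exact (min_le_right _ _).trans (min_le_left _ _)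
  have h03 : ε₀ ≤ ε / (4 * (A + 1)) := by rw [hε₀]; exact (min_le_right _ _).trans (min_le_right _ _)
  have h04 : (A + 1) * ε₀ ≤ ε / 4 := by
    rw [le_div_iff₀ (by positivity)] at h03
    linarith
  -- the functions
  obtain ⟨Y, hYd⟩ : ∃ Y : Option σ → ℕ → (Fin d → ℤ) → ℝ, Y = fun o p v => if good p v then o.elim 1 (fun s => val s p v) else 0 := ⟨_, rfl⟩
  obtain ⟨c', hc'⟩ : ∃ c' : Option σ → ℝ, c' = fun o => o.elim 1 c := ⟨_, rfl⟩
  obtain ⟨S', hS'⟩ : ∃ S' : Finset (Option σ), S' = insertNone S := ⟨_, rfl⟩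
  have hex : ∀ o : Option σ, ∃ (C : ℝ) (X₀ : ℕ), 0 < C ∧ (o ∈ S' → ∀ k X : ℕ, X₀ ≤ X → ∀ (c₀ : Fin d → ℤ)
      (u : Fin d → ℕ → ℕ → ℝ), (∀ j, Dist b k (min η 1) (u j)) →
      PrV b k u (fun g => ∃ x : ℕ, X ≤ x ∧ x ^ W ≤ b ^ k ∧ ε₀ * (Nat.primeCounting x : ℝ) <
      |∑ p ∈ (range (x + 1)).filter Nat.Prime, Y o p (fun j => c₀ j + κ j * (dval b (g j) : ℕ)) -
        c' o * (Nat.primeCounting x : ℝ)|) ≤ C * (Real.log X / X)) := by
    intro o
    by_cases ho : o ∈ S'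
    · rcases o with _ | s
      · obtain ⟨C, X₀, hC, _, h1⟩ := H d κ hκ q hq (Y none) 1 one_pos (by
          intro p v
          rw [hYd]
          simp only [Option.elim]
          split_ifs <;> simp) (fun p _ w => if goodg p w then (1 : ℝ) else 0) (by
          intro p _ hp v
          rw [hYd]
          simp only [Option.elim]
          rw [if_congr (hg p hp v) rfl rfl]) (c' none) (by
          rw [hc']
          exact hlim0) ε₀ h0
        exact ⟨C, X₀, hC, fun _ => h1⟩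
      · have hs : s ∈ S := by
          rw [hS'] at ho
          exact some_mem_insertNone.1 ho
        obtain ⟨C, X₀, hC, _, h1⟩ := H d κ hκ q hq (Y (some s)) (|B s| + 1) (by positivity) (by
          intro p v
          rw [hYd]
          simp only [Option.elim]
          split_ifs with hgd
          · have h2 := hB s hs p v hgd
            have h3 := le_abs_self (B s)
            linarith
          · rw [abs_zero]
            positivity) (fun p _ w => if goodg p w then valg s p w else 0) (by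
          intro p _ hp v
          rw [hYd]
          simp only [Option.elim]
          by_cases hgd : good p v
          · rw [if_pos hgd, if_pos ((hg p hp v).1 hgd), hv s hs p hp v hgd]
          · rw [if_neg hgd, if_neg (fun h => hgd ((hg p hp v).2 h))]) (c' (some s)) (by
          rw [hc']
          exact hlim s hs) ε₀ h0
        exact ⟨C, X₀, hC, fun _ => h1⟩
    · exact ⟨1, 0, one_pos, fun h => absurd h ho⟩
  choose C X₀ hC hH using hex
  refine ⟨∑ o ∈ S', C o, ∑ o ∈ S', X₀ o + 4, fun k X hX c₀ u hu => ?_⟩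
  obtain ⟨a, ha⟩ : ∃ a : (Fin d → Fin k → ℕ) → Fin d → ℤ, a = fun g j => c₀ j + κ j * (dval b (g j) : ℕ) := ⟨_, rfl⟩
  have hw : ∀ g : Fin d → Fin k → ℕ, 0 ≤ ∏ j, wt (u j) (g j) := fun g => prod_nonneg fun j _ => wt_nonneg (hu j) _
  have hone : ∀ o ∈ S', PrV b k u (fun g => ∃ x : ℕ, X ≤ x ∧ x ^ W ≤ b ^ k ∧ ε₀ * (Nat.primeCounting x : ℝ) <
      |∑ p ∈ (range (x + 1)).filter Nat.Prime, Y o p (a g) - c' o * (Nat.primeCounting x : ℝ)|) ≤
        C o * (Real.log X / X) := by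
    intro o ho
    rw [ha]
    apply hH o ho k X _ c₀ u fun j => (hu j).min _ (min_le_left _ _)
    have : X₀ o ≤ ∑ o ∈ S', X₀ o := single_le_sum (fun _ _ => Nat.zero_le _) ho
    omega
  have hcard : ∀ (v : Fin d → ℤ) (x : ℕ), ∑ p ∈ (range (x + 1)).filter Nat.Prime, Y none p v = (gset good v x).card := by
    intro v x
    rw [hYd]
    unfold gset
    simp only [Option.elim]
    rw [← sum_filter, filter_filter, sum_const, nsmul_eq_mul, mul_one]
    congr 2
    apply filter_congr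
    intro p _
    exact ⟨fun h => h.2, fun h => ⟨hgp p v h, h⟩⟩
  have hsum : ∀ (s : σ) (v : Fin d → ℤ) (x : ℕ), ∑ p ∈ (range (x + 1)).filter Nat.Prime, Y (some s) p v =
      ∑ p ∈ gset good v x, val s p v := by
    intro s v x
    rw [hYd]
    unfold gset
    simp only [Option.elim]
    rw [← sum_filter, filter_filter]
    apply sum_congr _ fun _ _ => rfl
    apply filter_congr
    intro p _
    exact ⟨fun h => h.2, fun h => ⟨hgp p v h, h⟩⟩
  have hcover : ∀ g, ¬ CloseG S good val c ε X W (b ^ k) (a g) → ∃ o ∈ S', ∃ x : ℕ, X ≤ x ∧ x ^ W ≤ b ^ k ∧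
      ε₀ * (Nat.primeCounting x : ℝ) < |∑ p ∈ (range (x + 1)).filter Nat.Prime, Y o p (a g) -
        c' o * (Nat.primeCounting x : ℝ)| := by
    intro g hgc
    by_contra hcon
    push Not at hcon
    apply hgc
    intro x hx hxW
    have hpi : 0 < (Nat.primeCounting x : ℝ) := (pi_lower' x (by omega)).1
    have h1 := hcon none (by rw [hS']; exact none_mem_insertNone) x hx hxW
    rw [hcard] at h1
    have hcn : c' none = 1 := by rw [hc']; rfl
    rw [hcn, one_mul] at h1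
    have h2 := (abs_le.1 h1).1
    have h3 := (abs_le.1 h1).2
    have h5 : (1 - ε₀) * (Nat.primeCounting x : ℝ) ≤ (gset good (a g) x).card := by linarith
    constructor
    · refine le_trans ?_ h5
      apply mul_le_mul_of_nonneg_right _ hpi.le
      linarith
    intro s hs
    have h6 := hcon (some s) (by rw [hS']; exact some_mem_insertNone.2 hs) x hx hxW
    rw [hsum] at h6
    have hcs : c' (some s) = c s := by rw [hc']; rfl
    rw [hcs] at h6
    have h7 : |c s * (Nat.primeCounting x : ℝ) - c s * ((gset good (a g) x).card : ℝ)| ≤ A * (ε₀ * Nat.primeCounting x) := by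
      rw [← mul_sub, abs_mul, abs_sub_comm]
      exact mul_le_mul (hAs s hs) h1 (abs_nonneg _) hA0
    have h8 := abs_sub_le (∑ p ∈ gset good (a g) x, val s p (a g)) (c s * (Nat.primeCounting x : ℝ))
      (c s * ((gset good (a g) x).card : ℝ))
    have h9 : (A + 1) * ε₀ * (Nat.primeCounting x : ℝ) ≤ ε / 4 * Nat.primeCounting x :=
      mul_le_mul_of_nonneg_right h04 hpi.le
    have h10 : (1 / 2) * (Nat.primeCounting x : ℝ) ≤ (gset good (a g) x).card := by
      refine le_trans ?_ h5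
      apply mul_le_mul_of_nonneg_right _ hpi.le
      linarith
    have h11 : ε / 2 * (Nat.primeCounting x : ℝ) ≤ ε * (gset good (a g) x).card := by
      have := mul_le_mul_of_nonneg_left h10 hε.le
      linarith
    have h12 : 0 ≤ ε * (Nat.primeCounting x : ℝ) := by positivity
    have h13 : (A + 1) * ε₀ * (Nat.primeCounting x : ℝ) = ε₀ * Nat.primeCounting x + A * (ε₀ * Nat.primeCounting x) := by ring
    linarith
  calc PrV b k u (fun g => ¬ CloseG S good val c ε X W (b ^ k) (fun j => c₀ j + κ j * (dval b (g j) : ℕ))) =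
        PrV b k u (fun g => ¬ CloseG S good val c ε X W (b ^ k) (a g)) := by rw [ha]
    _ ≤ ∑ o ∈ S', PrV b k u (fun g => ∃ x : ℕ, X ≤ x ∧ x ^ W ≤ b ^ k ∧ ε₀ * (Nat.primeCounting x : ℝ) <
      |∑ p ∈ (range (x + 1)).filter Nat.Prime, Y o p (a g) - c' o * (Nat.primeCounting x : ℝ)|) := by
          apply PrV_unionA b k u hw S'
          exact hcover
    _ ≤ ∑ o ∈ S', C o * (Real.log X / X) := sum_le_sum hone
    _ = _ := by rw [sum_mul]

end Pool.Agent.R318.SU
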