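import Pool.Agent.R318.SU.Lim
import Pool.Agent.R318.SU.Eng

/-! # Joint moments of the first two coefficients of the `L`-polynomials of hyperelliptic curves -/

set_option autoImplicit false
set_option linter.unusedSectionVars false

namespace Pool.Agent.R318.SU

open Finset Polynomial Filter Topology Pool.Agent.R318.ST

/-- the number of the points `(x, y)` of `y ^ 2 = f(x)` over the field with `p ^ 2` elements -/
noncomputable def points2 {n : ℕ} (a : Fin (n + 1) → ℤ) (p : ℕ) [Fact p.Prime] : ℕ :=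
  Nat.card {z : GaloisField p 2 × GaloisField p 2 // z.2 ^ 2 = ∑ j : Fin (n + 1), (a j : GaloisField p 2) * z.1 ^ (j : ℕ)}

open Classical in
/-- the second coefficient `((N₁ - p) ^ 2 + (N₂ - p ^ 2)) / (2 p)`, where `N₁`, `N₂` are the numbers of the points over the
fields with `p` and `p ^ 2` elements -/
noncomputable def a2 {n : ℕ} (a : Fin (n + 1) → ℤ) (p : ℕ) : ℝ :=
  if h : p.Prime then
    haveI : Fact p.Prime := ⟨h⟩
    (((points 2 a p : ℝ) - p) ^ 2 + ((points2 a p : ℝ) - (p : ℝ) ^ 2)) / (2 * p)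
  else 0

/-- the limiting joint moments: those of `(Z, (Z ^ 2 + 1) / 2 + Z')`, where `Z`, `Z'` are independent centered normal variables
with the variances `1` and `1 / 2` -/
noncomputable def MM (i j : ℕ) : ℝ :=
  ∑ c ∈ range (j + 1), ∑ a ∈ range (j - c + 1),
    (j.choose c : ℝ) * ((j - c).choose a : ℝ) * (1 / 2) ^ (j - c) * (G (i + 2 * a) * (G c * √(1 / 2) ^ c))

section

variable {p : ℕ} [hpF : Fact p.Prime]

lemma psi_chi (h3 : 3 ≤ p) (y : ZMod p) : psi 2 y = chi y := by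
  have h := quadraticChar_card_sqrts (F := ZMod p) (rc h3) y
  unfold psi chi
  have h1 : ((rt 2 y : ℤ)) = quadraticChar (ZMod p) y + 1 := by
    rw [← h]
    unfold rt
    congr 1
    apply congrArg
    ext z
    simp
  have h2 : (rt 2 y : ℝ) = ((quadraticChar (ZMod p) y : ℤ) : ℝ) + 1 := by exact_mod_cast h1
  rw [h2]
  ring

lemma points_SS (h3 : 3 ≤ p) {n : ℕ} (a : Fin (n + 1) → ℤ) :
    (points 2 a p : ℝ) - p = SS (fun j => ((a j : ℤ) : ZMod p)) := by
  rw [points_eq]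
  unfold SS
  exact sum_congr rfl fun x _ => psi_chi h3 _

lemma points2_eq (h3 : 3 ≤ p) {n : ℕ} (a : Fin (n + 1) → ℤ) :
    (points2 a p : ℝ) - (p : ℝ) ^ 2 = ∑ θ : GaloisField p 2, chi (aeval θ (evp (fun j => ((a j : ℤ) : ZMod p)))) := by
  classical
  have h1 : ∀ x : GaloisField p 2, aeval x (evp (fun j => ((a j : ℤ) : ZMod p))) =
      ∑ j : Fin (n + 1), (a j : GaloisField p 2) * x ^ (j : ℕ) := by
    intro x
    unfold evp
    rw [map_sum]
    apply sum_congr rfl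
    intro j _
    rw [map_mul, map_pow, aeval_X, aeval_C, map_intCast]
  have h2 : points2 a p = ∑ x : GaloisField p 2, (univ.filter (fun y : GaloisField p 2 => y ^ 2 =
      aeval x (evp (fun j => ((a j : ℤ) : ZMod p))))).card := by
    unfold points2
    rw [Nat.card_eq_fintype_card, Fintype.card_subtype, card_filter, Fintype.sum_prod_type]
    apply sum_congr rfl
    intro x _
    rw [card_filter]
    apply sum_congr rfl
    intro y _
    simp only [h1]
  have h4 : ∀ x : GaloisField p 2, ((univ.filter (fun y : GaloisField p 2 => y ^ 2 =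
      aeval x (evp (fun j => ((a j : ℤ) : ZMod p))))).card : ℝ) = chi (aeval x (evp (fun j => ((a j : ℤ) : ZMod p)))) + 1 := by
    intro x
    have h := quadraticChar_card_sqrts (F := GaloisField p 2) (rcK h3) (aeval x (evp (fun j => ((a j : ℤ) : ZMod p))))
    unfold chi
    have h5 : (((univ.filter (fun y : GaloisField p 2 => y ^ 2 = aeval x (evp (fun j => ((a j : ℤ) : ZMod p))))).card : ℤ)) =
        quadraticChar (GaloisField p 2) (aeval x (evp (fun j => ((a j : ℤ) : ZMod p)))) + 1 := by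
      rw [← h]
      congr 1
      apply congrArg
      ext z
      simp
    exact_mod_cast h5
  rw [h2]
  push_cast
  rw [sum_congr rfl fun x _ => h4 x, sum_add_distrib, sum_const, card_univ, cardG, nsmul_eq_mul, mul_one]
  push_cast
  ring

/-- the second coefficient, for a polynomial modulo `p` -/
noncomputable def a2u {n : ℕ} (u : Fin (n + 1) → ZMod p) : ℝ :=
  (SS u ^ 2 + ∑ θ : GaloisField p 2, chi (aeval θ (evp u))) / (2 * p)

lemma a2_eq (h3 : 3 ≤ p) {n : ℕ} (a : Fin (n + 1) → ℤ) : a2 a p = a2u (fun j => ((a j : ℤ) : ZMod p)) := by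
  unfold a2 a2u
  rw [dif_pos hpF.out, points_SS h3, points2_eq h3]

/-- the main part of the second coefficient -/
noncomputable def EE {n : ℕ} (u : Fin (n + 1) → ZMod p) : ℝ :=
  (SS u / √(p : ℝ)) ^ 2 / 2 + 1 / 2 + DD (GaloisField p 2) u / p

lemma Gu_ns {n : ℕ} (hn : 1 ≤ n) (u : Fin (n + 1) → ZMod p) (hu : Gu u) : ¬ IsSq u := by
  rintro ⟨c, h, hch⟩
  have hcoef : (evp u).coeff n ≠ 0 := by
    have := coeff_evp u (Fin.last n)
    rw [Fin.val_last] at this
    rw [this]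
    exact hu.1
  have h1 : n ≤ (evp u).natDegree := le_natDegree_of_ne_zero hcoef
  have h2 : IsUnit h := hu.2 h ⟨C c, by rw [hch]; ring⟩
  have h4 := natDegree_eq_zero_of_isUnit h2
  have h5 : (evp u).natDegree = 0 := by
    rw [hch]
    apply Nat.le_zero.1
    refine natDegree_mul_le.trans ?_
    rw [natDegree_C, natDegree_pow, h4]
  omega

lemma a2u_EE (h3 : 3 ≤ p) {n : ℕ} (u : Fin (n + 1) → ZMod p) (hu : Gu u) : |a2u u - EE u| ≤ n / (2 * p) := by
  have hp0 : (0 : ℝ) < p := by exact_mod_cast hpF.out.pos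
  unfold a2u EE
  rw [sum_K (cardG p) h3]
  have hz : (univ.filter (fun x : ZMod p => (evp u).eval x = 0)).card ≤ n := by
    by_contra hc
    push Not at hc
    have h0 : evp u = 0 := eq_zero_of_natDegree_lt_card_of_eval_eq_zero' (evp u)
      (univ.filter (fun x : ZMod p => (evp u).eval x = 0)) (fun i hi => (mem_filter.1 hi).2)
      ((evp_deg (by omega) u).trans_le (by omega))
    apply hu.1
    rw [← coeff_evp u (Fin.last n), h0, coeff_zero]
  have hz' : ((univ.filter (fun x : ZMod p => (evp u).eval x = 0)).card : ℝ) ≤ n := by exact_mod_cast hz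
  have h1 : (SS u / √(p : ℝ)) ^ 2 = SS u ^ 2 / p := by
    rw [div_pow, Real.sq_sqrt hp0.le]
  rw [h1]
  have h2 : (SS u ^ 2 + ((p : ℝ) - (univ.filter (fun x : ZMod p => (evp u).eval x = 0)).card + 2 * DD (GaloisField p 2) u)) / (2 * p) -
      (SS u ^ 2 / p / 2 + 1 / 2 + DD (GaloisField p 2) u / p) =
      -(((univ.filter (fun x : ZMod p => (evp u).eval x = 0)).card : ℝ) / (2 * p)) := by
    field_simp
    ring
  rw [h2, abs_neg, abs_of_nonneg (by positivity)]
  exact div_le_div_of_nonneg_right hz' (by positivity)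

/-- a bound for the second coefficient -/
noncomputable def BB (n : ℕ) : ℝ := (2 * n) ^ 2 / 2 + 1 / 2 + (n + 1) + n

lemma EE_bound (h3 : 3 ≤ p) {n : ℕ} (hn : 1 ≤ n) (u : Fin (n + 1) → ZMod p) (hu : Gu u) :
    |EE u| ≤ BB n ∧ |a2u u| ≤ BB n := by
  have hp0 : (0 : ℝ) < p := by exact_mod_cast hpF.out.pos
  have hp1 : (1 : ℝ) ≤ p := by exact_mod_cast hpF.out.one_le
  have h1 := SS_ns h3 u (Gu_ns hn u hu)
  have h2 := DD_ns (cardG p) h3 u (Gu_ns hn u hu)
  have h4 := a2u_EE h3 u hu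
  have hn0 : (0 : ℝ) ≤ n := Nat.cast_nonneg _
  have h5 : (n : ℝ) / (2 * p) ≤ n := by
    rw [div_le_iff₀ (by positivity)]
    nlinarith
  have h6 : (SS u / √(p : ℝ)) ^ 2 ≤ (2 * n) ^ 2 := by
    rw [← sq_abs]
    exact pow_le_pow_left₀ (abs_nonneg _) h1 2
  have h7 : |EE u| ≤ (2 * n) ^ 2 / 2 + 1 / 2 + (n + 1) := by
    unfold EE
    rw [abs_le]
    have h8 := abs_le.1 h2
    have h9 := sq_nonneg (SS u / √(p : ℝ))
    constructor <;> linarith [h8.1, h8.2]
  have h8 : |a2u u| ≤ |EE u| + |a2u u - EE u| := by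
    have := abs_add_le (EE u) (a2u u - EE u)
    simp only [add_sub_cancel] at this
    exact this
  unfold BB
  constructor <;> linarith

lemma BB_pos (n : ℕ) : 0 < BB n := by
  unfold BB
  positivity

end

open Classical in
/-- the joint moments with the main part of the second coefficient -/
noncomputable def monE (n i j : ℕ) (p : Nat.Primes) : ℝ :=
  haveI : Fact (p : ℕ).Prime := ⟨p.2⟩
  av (fun u : Fin (n + 1) → ZMod p => if Gu u then (SS u / √((p : ℕ) : ℝ)) ^ i * EE u ^ j else 0)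

open Classical in
/-- the joint moments -/
noncomputable def monY (n i j : ℕ) (p : Nat.Primes) : ℝ :=
  haveI : Fact (p : ℕ).Prime := ⟨p.2⟩
  av (fun u : Fin (n + 1) → ZMod p => if Gu u then (SS u / √((p : ℕ) : ℝ)) ^ i * a2u u ^ j else 0)

lemma monE_eq (n i j : ℕ) (p : Nat.Primes) : monE n i j p = ∑ c ∈ range (j + 1), ∑ a ∈ range (j - c + 1),
    (j.choose c : ℝ) * ((j - c).choose a : ℝ) * (1 / 2) ^ (j - c) * monG n (i + 2 * a) c p := by
  classical
  have : Fact (p : ℕ).Prime := ⟨p.2⟩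
  unfold monE monG
  have h1 : (fun u : Fin (n + 1) → ZMod p => if Gu u then (SS u / √((p : ℕ) : ℝ)) ^ i * EE u ^ j else 0) =
      fun u => ∑ c ∈ range (j + 1), ∑ a ∈ range (j - c + 1), ((j.choose c : ℝ) * ((j - c).choose a : ℝ) * (1 / 2) ^ (j - c)) *
        (if Gu u then (SS u / √((p : ℕ) : ℝ)) ^ (i + 2 * a) * (DD (GaloisField p 2) u / ((p : ℕ) : ℝ)) ^ c else 0) := by
    funext u
    by_cases h : Gu u
    · simp only [if_pos h]
      obtain ⟨A, hA⟩ : ∃ A, A = SS u / √((p : ℕ) : ℝ) := ⟨_, rfl⟩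
      obtain ⟨D, hD⟩ : ∃ D, D = DD (GaloisField p 2) u / ((p : ℕ) : ℝ) := ⟨_, rfl⟩
      have h2 : EE u = D + (1 / 2) * (A ^ 2 + 1) := by
        unfold EE
        rw [hA, hD]
        ring
      rw [h2, ← hA, ← hD, add_pow, mul_sum]
      apply sum_congr rfl
      intro c _
      rw [mul_pow, add_pow, mul_sum, mul_sum, sum_mul, mul_sum]
      apply sum_congr rfl
      intro a _
      rw [one_pow, pow_add, pow_mul]
      ring
    · simp only [if_neg h, mul_zero, sum_const_zero]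
  rw [h1, av_sum]
  apply sum_congr rfl
  intro c _
  rw [av_sum]
  apply sum_congr rfl
  intro a _
  rw [av_mul]

theorem monE_lim (n i j : ℕ) (hij : i + 2 * j < 2 * ((n + 1) / 2)) : Tendsto (monE n i j) ll (𝓝 (MM i j)) := by
  have h : ∀ c ∈ range (j + 1), ∀ a ∈ range (j - c + 1), Tendsto (fun p => (j.choose c : ℝ) * ((j - c).choose a : ℝ) *
      (1 / 2) ^ (j - c) * monG n (i + 2 * a) c p) ll (𝓝 ((j.choose c : ℝ) * ((j - c).choose a : ℝ) * (1 / 2) ^ (j - c) *
        (G (i + 2 * a) * (G c * √(1 / 2) ^ c)))) := by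
    intro c hc a ha
    rw [mem_range] at hc ha
    exact (monG_lim n (i + 2 * a) c (by omega)).const_mul _
  have h2 : Tendsto (fun p => ∑ c ∈ range (j + 1), ∑ a ∈ range (j - c + 1),
      (j.choose c : ℝ) * ((j - c).choose a : ℝ) * (1 / 2) ^ (j - c) * monG n (i + 2 * a) c p) ll (𝓝 (MM i j)) := by
    unfold MM
    apply tendsto_finsetSum
    intro c hc
    apply tendsto_finsetSum
    intro a ha
    exact h c hc a ha
  exact h2.congr fun p => (monE_eq n i j p).symm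

theorem monY_lim (n i j : ℕ) (hn : 1 ≤ n) (hij : i + 2 * j < 2 * ((n + 1) / 2)) : Tendsto (monY n i j) ll (𝓝 (MM i j)) := by
  classical
  apply tend_of _ (monE n i j) (fun p : Nat.Primes => ((2 * n : ℝ) ^ i * (j * BB n ^ (j - 1)) * n) / ((p : ℕ) : ℝ)) _ _
    (ll_inv _) (monE_lim n i j hij)
  filter_upwards [ll_ge 3] with p hp
  have : Fact (p : ℕ).Prime := ⟨p.2⟩
  have hp0 : (0 : ℝ) < (p : ℕ) := by exact_mod_cast p.2.pos
  have hB := BB_pos n
  unfold monY monE
  rw [← av_sub]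
  have hpt : ∀ u : Fin (n + 1) → ZMod p,
      |(if Gu u then (SS u / √((p : ℕ) : ℝ)) ^ i * a2u u ^ j else 0) -
        (if Gu u then (SS u / √((p : ℕ) : ℝ)) ^ i * EE u ^ j else 0)| ≤
      ((2 * n : ℝ) ^ i * (j * BB n ^ (j - 1)) * n) / ((p : ℕ) : ℝ) * 1 := by
    intro u
    split_ifs with h
    · rw [← mul_sub, abs_mul, abs_pow]
      have h1 := SS_ns hp u (Gu_ns hn u h)
      have h2 := EE_bound hp hn u h
      have h4 := a2u_EE hp u h
      have h5 : |a2u u ^ j - EE u ^ j| ≤ |a2u u - EE u| * j * max |a2u u| |EE u| ^ (j - 1) := abs_pow_sub_pow_le _ _ _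
      have h6 : max |a2u u| |EE u| ≤ BB n := max_le h2.2 h2.1
      have h7 : |a2u u - EE u| * j * max |a2u u| |EE u| ^ (j - 1) ≤ n / (2 * (p : ℕ)) * j * BB n ^ (j - 1) := by
        apply mul_le_mul _ (pow_le_pow_left₀ (le_max_of_le_left (abs_nonneg _)) h6 _) (by positivity) (by positivity)
        exact mul_le_mul_of_nonneg_right h4 (Nat.cast_nonneg _)
      calc |SS u / √((p : ℕ) : ℝ)| ^ i * |a2u u ^ j - EE u ^ j| ≤
            (2 * n : ℝ) ^ i * (n / (2 * (p : ℕ)) * j * BB n ^ (j - 1)) :=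
            mul_le_mul (pow_le_pow_left₀ (abs_nonneg _) h1 i) (h5.trans h7) (abs_nonneg _) (by positivity)
        _ = ((2 * n : ℝ) ^ i * (j * BB n ^ (j - 1)) * n) / ((p : ℕ) : ℝ) * (1 / 2) := by
            field_simp
        _ ≤ _ := by
            apply mul_le_mul_of_nonneg_left (by norm_num) (by positivity)
    · rw [sub_self, abs_zero]
      positivity
  have h1 : ∀ f : (Fin (n + 1) → ZMod p) → ℝ, |av f| ≤ av (fun u => |f u|) := by
    intro f
    unfold av
    rw [abs_div, abs_of_nonneg (Nat.cast_nonneg _ : (0 : ℝ) ≤ (Fintype.card (Fin (n + 1) → ZMod p) : ℝ))]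
    exact div_le_div_of_nonneg_right (abs_sum_le_sum_abs _ _) (Nat.cast_nonneg _)
  refine (h1 _).trans ((av_mono _ _ hpt).trans ?_)
  rw [av_mul, av_one, mul_one]

/-- from limits along the primes to bounds -/
lemma lim_bd (f : Nat.Primes → ℝ) (c : ℝ) (h : Tendsto f ll (𝓝 c)) (ε : ℝ) (hε : 0 < ε) :
    ∃ p₀ : ℕ, ∀ p : Nat.Primes, p₀ ≤ (p : ℕ) → |f p - c| ≤ ε := by
  have h1 := (Metric.tendsto_nhds.1 h) ε hε
  unfold ll at h1
  rw [eventually_comap, eventually_atTop] at h1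
  obtain ⟨p₀, hp₀⟩ := h1
  refine ⟨p₀, fun p hp => ?_⟩
  have := hp₀ (p : ℕ) hp p rfl
  rw [Real.dist_eq] at this
  exact this.le

/-- at every `x ≥ X` with `x ^ W ≤ N`: almost all primes are good, and the averages of `a1 ^ i a2 ^ j` are close to `MM i j` -/
def Close2 (n : ℕ) (ε : ℝ) (X W N : ℕ) (a : Fin (n + 1) → ℤ) : Prop :=
  ∀ x : ℕ, X ≤ x → x ^ W ≤ N → (1 - ε) * (Nat.primeCounting x : ℝ) ≤ (goods 2 a x).card ∧
    ∀ i j : ℕ, i + 2 * j < 2 * ((n + 1) / 2) →
      |∑ p ∈ goods 2 a x, a1 2 a p ^ i * a2 a p ^ j - MM i j * (goods 2 a x).card| ≤ ε * (goods 2 a x).card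

theorem main (b : ℕ) (hb : 2 ≤ b) (η : ℝ) (hη : 0 < η) : ∃ W : ℕ, 1 ≤ W ∧
    ∀ n : ℕ, 1 ≤ n → ∀ κ : Fin (n + 1) → ℤ, (∀ j, κ j ≠ 0) → ∀ ε : ℝ, 0 < ε →
    ∃ (C : ℝ) (X₀ : ℕ), ∀ k X : ℕ, X₀ ≤ X → ∀ (c : Fin (n + 1) → ℤ) (u : Fin (n + 1) → ℕ → ℕ → ℝ),
    (∀ j, Dist b k η (u j)) →
    PrV b k u (fun g => ¬ Close2 n ε X W (b ^ k) (fun j => c j + κ j * (dval b (g j) : ℕ))) ≤ C * (Real.log X / X) := by
  classical
  obtain ⟨W, hW, H⟩ := gen_all b hb η hη
  refine ⟨W, hW, fun n hn κ hκ ε hε => ?_⟩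
  obtain ⟨R, hR⟩ : ∃ R, R = 2 * ((n + 1) / 2) := ⟨_, rfl⟩
  obtain ⟨S, hS⟩ : ∃ S : Finset (ℕ × ℕ), S = (range R ×ˢ range R).filter (fun s => s.1 + 2 * s.2 < R) := ⟨_, rfl⟩
  have hmS : ∀ s, s ∈ S ↔ s.1 + 2 * s.2 < R := by
    intro s
    rw [hS, mem_filter, mem_product, mem_range, mem_range]
    constructor
    · exact fun h => h.2
    · exact fun h => ⟨⟨by omega, by omega⟩, h⟩
  have hGu : ∀ (p : ℕ) [Fact p.Prime], ¬ p ∣ 2 → ∀ v : Fin (n + 1) → ℤ, GoodP 2 v p ↔ Gu (fun j => ((v j : ℤ) : ZMod p)) := by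
    intro p hF hp a
    unfold GoodP Gu
    constructor
    · rintro ⟨_, _, h3, h4⟩
      refine ⟨fun h => h3 ((ZMod.intCast_zmod_eq_zero_iff_dvd _ p).1 h), h4⟩
    · rintro ⟨h3, h4⟩
      exact ⟨hF.out, fun h => hp (by rw [h]), fun h => h3 ((ZMod.intCast_zmod_eq_zero_iff_dvd _ p).2 h), h4⟩
  have h3p : ∀ p : ℕ, p.Prime → ¬ p ∣ 2 → 3 ≤ p := by
    intro p hp h
    have h2 := hp.two_le
    rcases Nat.lt_or_ge 2 p with h4 | h4
    · exact h4
    · exfalso
      apply h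
      have : p = 2 := by omega
      rw [this]
  have ha1 : ∀ (p : ℕ) [Fact p.Prime], 3 ≤ p → ∀ v : Fin (n + 1) → ℤ, a1 2 v p = SS (fun j => ((v j : ℤ) : ZMod p)) / √(p : ℝ) := by
    intro p _ h3 v
    unfold a1
    rw [points_SS h3]
  have h := H (n + 1) κ hκ 2 two_ne_zero (ℕ × ℕ) S (fun p v => GoodP 2 v p) (fun s p v => a1 2 v p ^ s.1 * a2 v p ^ s.2)
    (fun s => (2 * (n : ℝ)) ^ s.1 * BB n ^ s.2) (fun p v hg => hg.1) (by
    intro s _ p v hg
    have hF : Fact p.Prime := ⟨hg.1⟩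
    have h3 : 3 ≤ p := by
      have := hg.1.two_le
      have := hg.2.1
      omega
    have hG := (hGu p (fun h => by
      have := Nat.le_of_dvd (by norm_num) h
      omega) v).1 hg
    have k1 := SS_ns h3 _ (Gu_ns hn _ hG)
    have k2 := (EE_bound h3 hn _ hG).2
    rw [← ha1 p h3] at k1
    rw [← a2_eq h3] at k2
    rw [abs_mul, abs_pow, abs_pow]
    exact mul_le_mul (pow_le_pow_left₀ (abs_nonneg _) k1 _) (pow_le_pow_left₀ (abs_nonneg _) k2 _) (by positivity) (by positivity))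
    (fun p _ u => Gu u) (fun s p _ u => (SS u / √(p : ℝ)) ^ s.1 * a2u u ^ s.2) hGu (by
    intro s _ p hF hp v _
    have h3 := h3p p hF.out hp
    rw [ha1 p h3, a2_eq h3]) (by
    intro ε' hε'
    obtain ⟨p₀, hp₀⟩ := exists_nat_ge (((n : ℝ) + 1) / ε')
    refine ⟨p₀, fun p hF hpp => ?_⟩
    have hp0 : (0 : ℝ) < p := by exact_mod_cast hF.out.pos
    have e1 : (fun w : Fin (n + 1) → ZMod p => if Gu w then (1 : ℝ) else 0) = fun w => 1 - (if Gu w then (0 : ℝ) else 1) := by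
      funext w
      split_ifs <;> simp
    rw [e1, av_sub, av_one, sub_sub_cancel_left, abs_neg, abs_of_nonneg]
    · refine (bad_av n p).trans ?_
      rw [div_le_iff₀ hp0]
      have h3 : ((n : ℝ) + 1) / ε' ≤ p := hp₀.trans (by exact_mod_cast hpp)
      rw [div_le_iff₀ hε'] at h3
      linarith
    · apply av_nonneg
      intro u
      split_ifs <;> norm_num) (fun s => MM s.1 s.2) (by
    intro s hs ε' hε'
    rw [hmS, hR] at hs
    obtain ⟨p₀, hp₀⟩ := lim_bd _ _ (monY_lim n s.1 s.2 hn hs) ε' hε'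
    refine ⟨p₀, fun p hF hpp => ?_⟩
    exact hp₀ ⟨p, hF.out⟩ hpp) ε hε
  obtain ⟨C, X₀, h1⟩ := h
  refine ⟨C, X₀, fun k X hX c u hu => ?_⟩
  refine le_trans ?_ (h1 k X hX c u hu)
  have hset : ∀ (v : Fin (n + 1) → ℤ) (x : ℕ), gset (fun p v => GoodP 2 v p) v x = goods 2 v x := by
    intro v x
    unfold gset goods
    rfl
  have himp : ∀ v : Fin (n + 1) → ℤ, CloseG S (fun p v => GoodP 2 v p) (fun s p v => a1 2 v p ^ s.1 * a2 v p ^ s.2)
      (fun s => MM s.1 s.2) ε X W (b ^ k) v → Close2 n ε X W (b ^ k) v := by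
    intro v hv x hx hxW
    obtain ⟨k1, k2⟩ := hv x hx hxW
    rw [hset] at k1 k2
    exact ⟨k1, fun i j hij => k2 (i, j) ((hmS (i, j)).2 (by rw [hR]; exact hij))⟩
  have hw : ∀ g : Fin (n + 1) → Fin k → ℕ, 0 ≤ ∏ j, wt (u j) (g j) := fun g => prod_nonneg fun j _ => wt_nonneg (hu j) _
  have hU := PrV_unionA b k u hw ({()} : Finset Unit)
    (fun g => ¬ Close2 n ε X W (b ^ k) (fun j => c j + κ j * (dval b (g j) : ℕ)))
    (fun _ g => ¬ CloseG S (fun p v => GoodP 2 v p) (fun s p v => a1 2 v p ^ s.1 * a2 v p ^ s.2)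
      (fun s => MM s.1 s.2) ε X W (b ^ k) (fun j => c j + κ j * (dval b (g j) : ℕ)))
    (fun g hg => ⟨(), mem_singleton_self _, fun h => hg (himp _ h)⟩)
  rw [sum_singleton] at hU
  exact hU

end Pool.Agent.R318.SU
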