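import Pool.Agent.R318.SU.Half
import Pool.Agent.R318.ST.Avg

/-! # Weil's bound for polynomials that are not a constant times a square, and the number of the other polynomials -/

set_option autoImplicit false
set_option linter.unusedSectionVars false

namespace Pool.Agent.R318.SU

open Finset Polynomial Pool.Agent.R318.ST

/-- the quadratic character -/
noncomputable def chi {F : Type} [Field F] [Fintype F] [DecidableEq F] (y : F) : ℝ := ((quadraticChar F y : ℤ) : ℝ)

section field

variable {F : Type} [Field F] [Fintype F] [DecidableEq F]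

lemma chi_abs (y : F) : |chi y| ≤ 1 := by
  unfold chi
  by_cases h : y = 0
  · rw [h, quadraticChar_zero]
    simp
  · rcases quadraticChar_dichotomy h with h1 | h1 <;> rw [h1] <;> simp

lemma chi_sq (y : F) (hy : y ≠ 0) : chi y ^ 2 = 1 := by
  unfold chi
  rcases quadraticChar_dichotomy hy with h1 | h1 <;> rw [h1] <;> simp

lemma chi_mul (x y : F) : chi (x * y) = chi x * chi y := by
  unfold chi
  rw [map_mul]
  push_cast
  rfl

lemma chi_zero : chi (0 : F) = 0 := by
  unfold chi
  rw [quadraticChar_zero]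
  simp

theorem chi_weil (hF : ringChar F ≠ 2) (h3 : 3 ≤ Fintype.card F) (g : F[X]) (hg : Squarefree g) (hd : 1 ≤ g.natDegree) :
    |∑ x, chi (g.eval x)| ≤ g.natDegree * √(Fintype.card F : ℝ) := by
  have h := weil_sf h3 ((quadraticChar F).ringHomComp (Int.castRingHom ℂ)) (by
    rw [MulChar.ringHomComp_ne_one_iff (RingHom.injective_int _)]
    exact quadraticChar_ne_one hF) g hg hd
  have h1 : (∑ x : F, ((quadraticChar F).ringHomComp (Int.castRingHom ℂ)) (g.eval x)) = ((∑ x, chi (g.eval x) : ℝ) : ℂ) := by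
    push_cast
    apply sum_congr rfl
    intro x _
    unfold chi
    rw [MulChar.ringHomComp_apply]
    simp
  rw [h1, Complex.norm_real, Real.norm_eq_abs] at h
  exact h

theorem chi_ns (hF : ringChar F ≠ 2) (h3 : 3 ≤ Fintype.card F) (h g : F[X]) (hh : h ≠ 0) (hg : Squarefree g)
    (hd : 1 ≤ g.natDegree) :
    |∑ x, chi ((h ^ 2 * g).eval x)| ≤ g.natDegree * √(Fintype.card F : ℝ) + h.natDegree := by
  classical
  have h1 := chi_weil hF h3 g hg hd
  have h2 : |∑ x, chi ((h ^ 2 * g).eval x) - ∑ x, chi (g.eval x)| ≤ h.natDegree := by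
    rw [← sum_sub_distrib]
    have h4 : ∀ x : F, |chi ((h ^ 2 * g).eval x) - chi (g.eval x)| ≤ if h.eval x = 0 then 1 else 0 := by
      intro x
      rw [eval_mul, eval_pow, chi_mul]
      split_ifs with hx
      · rw [hx, zero_pow two_ne_zero, chi_zero, zero_mul, zero_sub, abs_neg]
        exact chi_abs _
      · have h5 : chi (h.eval x ^ 2) = 1 := by
          rw [sq, chi_mul, ← sq, chi_sq _ hx]
        rw [h5, one_mul, sub_self, abs_zero]
    refine (abs_sum_le_sum_abs _ _).trans ((sum_le_sum fun x _ => h4 x).trans ?_)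
    rw [← sum_filter, sum_const, nsmul_eq_mul, mul_one]
    have h6 : (univ.filter (fun x => h.eval x = 0)).card ≤ h.natDegree := by
      by_contra hc
      push Not at hc
      exact hh (eq_zero_of_natDegree_lt_card_of_eval_eq_zero' h _ (fun i hi => (mem_filter.1 hi).2) hc)
    exact_mod_cast h6
  have h7 := abs_sub_abs_le_abs_sub (∑ x, chi ((h ^ 2 * g).eval x)) (∑ x, chi (g.eval x))
  linarith

end field

/-- a polynomial is a square times a squarefree polynomial -/
lemma sq_decomp {F : Type} [Field F] : ∀ (m : ℕ) (f : F[X]), f ≠ 0 → f.natDegree ≤ m → ∃ h g : F[X], f = h ^ 2 * g ∧ Squarefree g := by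
  intro m
  induction m with
  | zero =>
    intro f hf hd
    refine ⟨1, f, by ring, ?_⟩
    have hu : IsUnit f := by
      rw [Polynomial.isUnit_iff_degree_eq_zero, degree_eq_natDegree hf]
      exact_mod_cast (by omega : f.natDegree = 0)
    exact hu.squarefree
  | succ m ih =>
    intro f hf hd
    by_cases hs : Squarefree f
    · exact ⟨1, f, by ring, hs⟩
    · unfold Squarefree at hs
      push Not at hs
      obtain ⟨d, ⟨e, he⟩, hdu⟩ := hs
      have hd0 : d ≠ 0 := by
        rintro rfl
        apply hf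
        rw [he]
        ring
      have he0 : e ≠ 0 := by
        rintro rfl
        apply hf
        rw [he]
        ring
      have hdeg : 1 ≤ d.natDegree := by
        by_contra hc
        apply hdu
        rw [Polynomial.isUnit_iff_degree_eq_zero, degree_eq_natDegree hd0]
        exact_mod_cast (by omega : d.natDegree = 0)
      have h1 : f.natDegree = d.natDegree + d.natDegree + e.natDegree := by
        rw [he, natDegree_mul (mul_ne_zero hd0 hd0) he0, natDegree_mul hd0 hd0]
      obtain ⟨h, g, hg, hsq⟩ := ih e he0 (by omega)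
      exact ⟨d * h, g, by rw [he, hg]; ring, hsq⟩

section

variable {p : ℕ} [Fact p.Prime] {K : Type} [Field K] [Fintype K] [DecidableEq K] [Algebra (ZMod p) K]

/-- a constant times a square -/
def IsSq {n : ℕ} (u : Fin (n + 1) → ZMod p) : Prop := ∃ (c : ZMod p) (h : (ZMod p)[X]), evp u = C c * h ^ 2

/-- the sum over the points of degree `1` -/
noncomputable def SS {n : ℕ} (u : Fin (n + 1) → ZMod p) : ℝ := ∑ x : ZMod p, chi ((evp u).eval x)

/-- the sum over the points of degree `2` -/
noncomputable def DD (K : Type) [Field K] [Fintype K] [DecidableEq K] [Algebra (ZMod p) K] {n : ℕ} (u : Fin (n + 1) → ZMod p) : ℝ :=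
  ∑ θ ∈ half p K, chi (aeval θ (evp u))

lemma rc (h3 : 3 ≤ p) : ringChar (ZMod p) ≠ 2 := by
  rw [ZMod.ringChar_zmod_n]
  omega

lemma rcK (h3 : 3 ≤ p) : ringChar K ≠ 2 := by
  have hc : CharP K p := charP_of_injective_algebraMap (algebraMap (ZMod p) K).injective p
  rw [ringChar.eq K p]
  omega

lemma chi_conj (h3 : 3 ≤ p) (y : K) : chi (y ^ p) = chi y := by
  unfold chi
  rw [map_pow]
  have hodd : Odd p := (Fact.out (p := p.Prime)).odd_of_ne_two (by omega)
  by_cases h : y = 0
  · rw [h, quadraticChar_zero, zero_pow (by omega)]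
  · rcases quadraticChar_dichotomy h with h1 | h1 <;> rw [h1]
    · rw [one_pow]
    · rw [hodd.neg_one_pow]

lemma chi_base (hK : Fintype.card K = p ^ 2) (h3 : 3 ≤ p) (x : ZMod p) (hx : x ≠ 0) : chi (algebraMap (ZMod p) K x) = 1 := by
  have hx' : algebraMap (ZMod p) K x ≠ 0 := by
    rwa [Ne, FaithfulSMul.algebraMap_eq_zero_iff]
  unfold chi
  have h1 : quadraticChar K (algebraMap (ZMod p) K x) = 1 := by
    rw [quadraticChar_one_iff_isSquare hx', FiniteField.isSquare_iff (rcK h3) hx', hK, ← map_pow]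
    have hodd : Odd p := (Fact.out (p := p.Prime)).odd_of_ne_two (by omega)
    obtain ⟨k, hk⟩ := hodd
    have h2 : p ^ 2 / 2 = (p - 1) * (k + 1) := by
      have h4 : p ^ 2 = 2 * ((p - 1) * (k + 1)) + 1 := by
        rw [hk, Nat.add_sub_cancel]
        ring
      omega
    rw [h2, pow_mul, ZMod.pow_card_sub_one_eq_one hx, one_pow, map_one]
  rw [h1]
  simp

/-- the sum over all points over the field with `p ^ 2` elements -/
lemma sum_K (hK : Fintype.card K = p ^ 2) (h3 : 3 ≤ p) {n : ℕ} (u : Fin (n + 1) → ZMod p) :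
    ∑ θ : K, chi (aeval θ (evp u)) = (p : ℝ) - (univ.filter (fun x : ZMod p => (evp u).eval x = 0)).card + 2 * DD K u := by
  classical
  rw [sum_split hK]
  have h1 : ∑ θ ∈ half p K, chi (aeval (θ ^ p) (evp u)) = ∑ θ ∈ half p K, chi (aeval θ (evp u)) := by
    apply sum_congr rfl
    intro θ _
    rw [frob_aeval, chi_conj h3]
  have h2 : ∑ x : ZMod p, chi (aeval (algebraMap (ZMod p) K x) (evp u)) =
      (p : ℝ) - (univ.filter (fun x : ZMod p => (evp u).eval x = 0)).card := by
    have h4 : ∀ x : ZMod p, chi (aeval (algebraMap (ZMod p) K x) (evp u)) =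
        1 - (if (evp u).eval x = 0 then (1 : ℝ) else 0) := by
      intro x
      have h5 : aeval (algebraMap (ZMod p) K x) (evp u) = algebraMap (ZMod p) K ((evp u).eval x) := by
        rw [aeval_algebraMap_apply, aeval_def, Algebra.algebraMap_self, eval₂_id]
      rw [h5]
      split_ifs with h
      · rw [h, map_zero, chi_zero, sub_self]
      · rw [chi_base hK h3 _ h, sub_zero]
    simp only [h4]
    rw [sum_sub_distrib, sum_const, card_univ, ZMod.card, nsmul_eq_mul, mul_one, ← sum_filter, sum_const, nsmul_eq_mul, mul_one]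
  rw [h1, h2]
  unfold DD
  ring

lemma decomp {n : ℕ} (u : Fin (n + 1) → ZMod p) (hu : ¬ IsSq u) : ∃ h g : (ZMod p)[X],
    evp u = h ^ 2 * g ∧ Squarefree g ∧ 1 ≤ g.natDegree ∧ h ≠ 0 ∧ g.natDegree ≤ n ∧ h.natDegree ≤ n := by
  have h0 : evp u ≠ 0 := by
    intro h
    exact hu ⟨0, 0, by rw [h]; simp⟩
  obtain ⟨h, g, hg, hsf⟩ := sq_decomp (evp u).natDegree (evp u) h0 le_rfl
  have hh : h ≠ 0 := by
    rintro rfl
    apply h0
    rw [hg]
    ring
  have hg0 : g ≠ 0 := by
    rintro rfl
    apply h0
    rw [hg]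
    ring
  have hdeg : (evp u).natDegree = 2 * h.natDegree + g.natDegree := by
    rw [hg, natDegree_mul (pow_ne_zero _ hh) hg0, natDegree_pow]
  have hd := evp_deg (by omega) u
  refine ⟨h, g, hg, hsf, ?_, hh, by omega, by omega⟩
  by_contra hc
  apply hu
  have : g = C (g.coeff 0) := eq_C_of_natDegree_eq_zero (by omega)
  exact ⟨g.coeff 0, h, by rw [hg, ← this]; ring⟩

lemma SS_ns (h3 : 3 ≤ p) {n : ℕ} (u : Fin (n + 1) → ZMod p) (hu : ¬ IsSq u) : |SS u / √(p : ℝ)| ≤ 2 * n := by
  have hp0 : (0 : ℝ) < p := by exact_mod_cast (Fact.out (p := p.Prime)).pos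
  have hs : 0 < √(p : ℝ) := Real.sqrt_pos.2 hp0
  have hs1 : 1 ≤ √(p : ℝ) := by
    rw [Real.one_le_sqrt]
    exact_mod_cast (Fact.out (p := p.Prime)).one_le
  obtain ⟨h, g, hg, hsf, hd, hh, hgn, hhn⟩ := decomp u hu
  have h1 := chi_ns (rc h3) (by rw [ZMod.card]; exact h3) h g hh hsf hd
  rw [← hg, ZMod.card] at h1
  rw [abs_div, abs_of_pos hs, div_le_iff₀ hs]
  unfold SS
  have h2 : (g.natDegree : ℝ) ≤ n := by exact_mod_cast hgn
  have h4 : (h.natDegree : ℝ) ≤ n := by exact_mod_cast hhn
  have h5 : (0 : ℝ) ≤ n := Nat.cast_nonneg _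
  nlinarith

lemma DD_ns (hK : Fintype.card K = p ^ 2) (h3 : 3 ≤ p) {n : ℕ} (u : Fin (n + 1) → ZMod p) (hu : ¬ IsSq u) :
    |DD K u / (p : ℝ)| ≤ n + 1 := by
  have hp0 : (0 : ℝ) < p := by exact_mod_cast (Fact.out (p := p.Prime)).pos
  have hp1 : (1 : ℝ) ≤ p := by exact_mod_cast (Fact.out (p := p.Prime)).one_le
  obtain ⟨h, g, hg, hsf, hd, hh, hgn, hhn⟩ := decomp u hu
  have hq : 3 ≤ Fintype.card K := by
    rw [hK]
    nlinarith
  have hsfK : Squarefree (g.map (algebraMap (ZMod p) K)) :=
    ((PerfectField.separable_iff_squarefree.2 hsf).map).squarefree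
  have h1 := chi_ns (rcK h3) hq (h.map (algebraMap (ZMod p) K)) (g.map (algebraMap (ZMod p) K))
    ((Polynomial.map_ne_zero_iff (algebraMap (ZMod p) K).injective).2 hh) hsfK (by rw [natDegree_map]; exact hd)
  have h2 : (h.map (algebraMap (ZMod p) K)) ^ 2 * g.map (algebraMap (ZMod p) K) = (evp u).map (algebraMap (ZMod p) K) := by
    rw [hg, Polynomial.map_mul, Polynomial.map_pow]
  rw [h2, natDegree_map, natDegree_map, hK] at h1
  simp only [eval_map_algebraMap] at h1
  rw [sum_K hK h3] at h1
  have h4 : √((p ^ 2 : ℕ) : ℝ) = p := by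
    push_cast
    exact Real.sqrt_sq hp0.le
  rw [h4] at h1
  have h5 : ((univ.filter (fun x : ZMod p => (evp u).eval x = 0)).card : ℝ) ≤ p := by
    have := card_filter_le (univ : Finset (ZMod p)) (fun x : ZMod p => (evp u).eval x = 0)
    rw [card_univ, ZMod.card] at this
    exact_mod_cast this
  have h6 : (0 : ℝ) ≤ (univ.filter (fun x : ZMod p => (evp u).eval x = 0)).card := Nat.cast_nonneg _
  have h7 : (g.natDegree : ℝ) ≤ n := by exact_mod_cast hgn
  have h8 : (h.natDegree : ℝ) ≤ n := by exact_mod_cast hhn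
  have h9 : (0 : ℝ) ≤ n := Nat.cast_nonneg _
  have h10 := abs_le.1 h1
  have h11 : (g.natDegree : ℝ) * p ≤ n * p := mul_le_mul_of_nonneg_right h7 hp0.le
  have h12 : (n : ℝ) ≤ n * p := le_mul_of_one_le_right h9 hp1
  rw [abs_div, abs_of_pos hp0, div_le_iff₀ hp0, abs_le]
  constructor <;> nlinarith [h10.1, h10.2]

lemma SS_triv {n : ℕ} (u : Fin (n + 1) → ZMod p) : |SS u| ≤ p := by
  unfold SS
  refine (abs_sum_le_sum_abs _ _).trans ((sum_le_card_nsmul _ _ 1 fun x _ => chi_abs _).trans ?_)
  rw [card_univ, ZMod.card, nsmul_eq_mul, mul_one]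

lemma DD_triv (hK : Fintype.card K = p ^ 2) {n : ℕ} (u : Fin (n + 1) → ZMod p) : |DD K u| ≤ (p : ℝ) ^ 2 := by
  unfold DD
  refine (abs_sum_le_sum_abs _ _).trans ((sum_le_card_nsmul _ _ 1 fun x _ => chi_abs _).trans ?_)
  rw [nsmul_eq_mul, mul_one, half_card hK]
  have hp0 : (0 : ℝ) < p := by exact_mod_cast (Fact.out (p := p.Prime)).pos
  nlinarith [sq_nonneg (p : ℝ)]

open Classical in
/-- the number of the polynomials that are a constant times a square -/
lemma sq_count (h3 : 3 ≤ p) (n : ℕ) :
    (((univ : Finset (Fin (n + 1) → ZMod p)).filter (fun u => IsSq u)).card : ℝ) ≤ 2 * (p : ℝ) ^ (n / 2 + 1) := by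
  obtain ⟨ν, hν⟩ := FiniteField.exists_nonsquare (rc (p := p) h3)
  obtain ⟨φ, hφ⟩ : ∃ φ : Bool × (Fin (n / 2 + 1) → ZMod p) → (Fin (n + 1) → ZMod p),
      φ = fun z j => ((if z.1 then C ν else 1) * (evp z.2) ^ 2).coeff j := ⟨_, rfl⟩
  have hsub : (univ : Finset (Fin (n + 1) → ZMod p)).filter (fun u => IsSq u) ⊆ univ.image φ := by
    intro u hu
    rw [mem_filter] at hu
    obtain ⟨_, c, h, hch⟩ := hu
    rw [mem_image]
    have hsqr : ∃ (b : Bool) (g : (ZMod p)[X]), evp u = (if b then C ν else 1) * g ^ 2 := by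
      by_cases hc : IsSquare c
      · obtain ⟨s, hs⟩ := hc
        refine ⟨false, C s * h, ?_⟩
        rw [hch, hs]
        simp only [Bool.false_eq_true, if_false, C_mul]
        ring
      · have hc0 : c ≠ 0 := by
          rintro rfl
          exact hc ⟨0, by ring⟩
        have hν0 : ν ≠ 0 := by
          rintro rfl
          exact hν ⟨0, by ring⟩
        have h1 : quadraticChar (ZMod p) (c * ν) = 1 := by
          rw [map_mul]
          have h4 := quadraticChar_dichotomy hc0
          have h5 := quadraticChar_dichotomy hν0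
          have h6 : quadraticChar (ZMod p) c = -1 := by
            rcases h4 with h | h
            · exact absurd ((quadraticChar_one_iff_isSquare hc0).1 h) hc
            · exact h
          have h7 : quadraticChar (ZMod p) ν = -1 := by
            rcases h5 with h | h
            · exact absurd ((quadraticChar_one_iff_isSquare hν0).1 h) hν
            · exact h
          rw [h6, h7]
          norm_num
        rw [quadraticChar_one_iff_isSquare (mul_ne_zero hc0 hν0)] at h1
        obtain ⟨s, hs⟩ := h1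
        refine ⟨true, C (s * ν⁻¹) * h, ?_⟩
        have h4 : c = ν * (s * ν⁻¹) ^ 2 := by
          field_simp
          rw [sq, ← hs]
        rw [hch, h4]
        simp only [if_true, C_mul, C_pow]
        ring
    obtain ⟨b, g, hg⟩ := hsqr
    have hgd : g.natDegree < n / 2 + 1 := by
      by_cases h0 : g = 0
      · rw [h0, natDegree_zero]
        omega
      · have hcb : ((if b then C ν else 1 : (ZMod p)[X])).natDegree = 0 := by
          split_ifs
          · exact natDegree_C _
          · exact natDegree_one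
        have hne : (if b then C ν else 1 : (ZMod p)[X]) ≠ 0 := by
          split_ifs
          · intro h
            rw [C_eq_zero] at h
            subst h
            exact hν ⟨0, by ring⟩
          · exact one_ne_zero
        have h1 : (evp u).natDegree = 2 * g.natDegree := by
          rw [hg, natDegree_mul hne (pow_ne_zero _ h0), hcb, natDegree_pow]
          omega
        have := evp_deg (by omega) u
        omega
    refine ⟨(b, fun j => g.coeff j), mem_univ _, ?_⟩
    rw [hφ]
    funext j
    simp only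
    rw [evp_coeff g hgd, ← hg, coeff_evp]
  have h1 := (card_le_card hsub).trans card_image_le
  rw [card_univ, Fintype.card_prod, Fintype.card_bool, Fintype.card_fun, Fintype.card_fin, ZMod.card] at h1
  exact_mod_cast h1

end

end Pool.Agent.R318.SU
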