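import Pool.Agent.R318.SU.Bad

/-! # Limits of the joint moments over all polynomials modulo `p` -/

set_option autoImplicit false
set_option linter.unusedSectionVars false

namespace Pool.Agent.R318.SU

open Finset Polynomial Filter Topology Pool.Agent.R318.ST

section sums

variable {F : Type} [Field F] [Fintype F] [DecidableEq F]

lemma chi_sum1 (hF : ringChar F ≠ 2) : ∑ y : F, chi y = 0 := by
  have h := quadraticChar_sum_zero (F := F) hF
  unfold chi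
  exact_mod_cast h

lemma chi_sum2 : ∑ y : F, chi y ^ 2 = (Fintype.card F : ℝ) - 1 := by
  classical
  have h1 : ∀ y : F, chi y ^ 2 = 1 - (if y = 0 then (1 : ℝ) else 0) := by
    intro y
    split_ifs with h
    · rw [h, chi_zero]
      norm_num
    · rw [chi_sq y h, sub_zero]
  simp only [h1]
  rw [sum_sub_distrib, sum_const, card_univ, nsmul_eq_mul, mul_one, sum_ite_eq' univ (0 : F) (fun _ => (1 : ℝ)), if_pos (mem_univ _)]

lemma chi_mom (j : ℕ) : |(∑ y : F, chi y ^ j) / (Fintype.card F : ℝ)| ≤ 1 ^ j := by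
  have h0 : (0 : ℝ) < Fintype.card F := by exact_mod_cast Fintype.card_pos
  rw [one_pow, abs_div, abs_of_pos h0, div_le_one h0]
  refine (abs_sum_le_sum_abs _ _).trans ((sum_le_card_nsmul _ _ 1 fun y _ => ?_).trans ?_)
  · rw [abs_pow]
    exact pow_le_one₀ (abs_nonneg _) (chi_abs y)
  · rw [card_univ, nsmul_eq_mul, mul_one]

end sums

lemma mom_S (n m : ℕ) (hm : m ≤ n + 1) : ∃ C : ℝ, 0 ≤ C ∧ ∀ (p : ℕ) [Fact p.Prime], 3 ≤ p →
    |av (fun u : Fin (n + 1) → ZMod p => (SS u / √(p : ℝ)) ^ m) - G m * √(1 - 1 / (p : ℝ)) ^ m| ≤ C / √(p : ℝ) := by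
  obtain ⟨C, hC, H⟩ := mom 1 le_rfl m
  refine ⟨C * m, by positivity, fun p hF h3 => ?_⟩
  have hp0 : (0 : ℝ) < p := by exact_mod_cast hF.out.pos
  have hs0 : 0 < √(p : ℝ) := Real.sqrt_pos.2 hp0
  have h := H m le_rfl (Fin (n + 1) → ZMod p) (ZMod p) (fun t u => chi ((evp u).eval t)) (n + 1) _
    (kwise (n + 1) (chi : ZMod p → ℝ)) hm (by simp only [pow_one]; rw [chi_sum1 (rc h3), zero_div])
    (by
      rw [chi_sum2, ZMod.card]
      apply div_nonneg _ hp0.le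
      have : (1 : ℝ) ≤ p := by exact_mod_cast hF.out.one_le
      linarith) (fun j => chi_mom j) univ
  rw [chi_sum2, card_univ, ZMod.card] at h
  have e1 : ((p : ℝ) - 1) / p = 1 - 1 / p := by field_simp
  rw [e1] at h
  have e2 : (fun u : Fin (n + 1) → ZMod p => (SS u / √(p : ℝ)) ^ m) = fun u => (1 / √(p : ℝ) ^ m) * (∑ t : ZMod p, chi ((evp u).eval t)) ^ m := by
    funext u
    unfold SS
    rw [div_pow]
    ring
  rw [e2, av_mul]
  rcases Nat.eq_zero_or_pos m with h0 | h0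
  · subst h0
    simp only [pow_zero, av_one, G]
    norm_num
  have e3 : 1 / √(p : ℝ) ^ m * av (fun u : Fin (n + 1) → ZMod p => (∑ t : ZMod p, chi ((evp u).eval t)) ^ m) - G m * √(1 - 1 / (p : ℝ)) ^ m =
      (av (fun u : Fin (n + 1) → ZMod p => (∑ t : ZMod p, chi ((evp u).eval t)) ^ m) - G m * √(1 - 1 / (p : ℝ)) ^ m * √(p : ℝ) ^ m) / √(p : ℝ) ^ m := by
    field_simp
  rw [e3, abs_div, abs_of_pos (pow_pos hs0 m), div_le_div_iff₀ (pow_pos hs0 m) hs0]
  have h4 : √(p : ℝ) ^ m = √(p : ℝ) ^ (m - 1) * √(p : ℝ) := by rw [← pow_succ, Nat.sub_add_cancel h0]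
  calc _ ≤ C * m * √(p : ℝ) ^ (m - 1) * √(p : ℝ) := mul_le_mul_of_nonneg_right h hs0.le
    _ = C * m * √(p : ℝ) ^ m := by rw [h4]; ring

lemma mom_D (n m : ℕ) (hm : 2 * m ≤ n + 1) : ∃ C : ℝ, 0 ≤ C ∧ ∀ (p : ℕ) [Fact p.Prime] (K : Type) [Field K] [Fintype K]
    [DecidableEq K] [Algebra (ZMod p) K], Fintype.card K = p ^ 2 → 3 ≤ p →
    |av (fun u : Fin (n + 1) → ZMod p => (DD K u / (p : ℝ)) ^ m) -
      G m * (√(1 - 1 / (p : ℝ) ^ 2) * √((1 - 1 / (p : ℝ)) / 2)) ^ m| ≤ C / p := by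
  obtain ⟨C, hC, H⟩ := mom 1 le_rfl m
  refine ⟨C * m, by positivity, fun p hF K _ _ _ _ hK h3 => ?_⟩
  have hp0 : (0 : ℝ) < p := by exact_mod_cast hF.out.pos
  have hp1 : (1 : ℝ) ≤ p := by exact_mod_cast hF.out.one_le
  have h := H m le_rfl (Fin (n + 1) → ZMod p) (half p K) (fun t u => chi (aeval (t : K) (evp u))) m _
    (kwise2 hK (n + 1) m hm (chi : K → ℝ)) le_rfl (by simp only [pow_one]; rw [chi_sum1 (rcK h3), zero_div])
    (by
      rw [chi_sum2, hK]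
      push_cast
      apply div_nonneg _ (by positivity)
      nlinarith) (fun j => chi_mom j) univ
  rw [chi_sum2, hK, card_univ, Fintype.card_coe, half_card hK] at h
  push_cast at h
  have e1 : ((p : ℝ) ^ 2 - 1) / p ^ 2 = 1 - 1 / p ^ 2 := by field_simp
  rw [e1] at h
  have e4 : √(((p : ℝ) ^ 2 - p) / 2) = p * √((1 - 1 / (p : ℝ)) / 2) := by
    have : ((p : ℝ) ^ 2 - p) / 2 = p ^ 2 * ((1 - 1 / (p : ℝ)) / 2) := by field_simp
    rw [this, Real.sqrt_mul (by positivity), Real.sqrt_sq hp0.le]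
  rw [e4] at h
  have e5 : ∀ u : Fin (n + 1) → ZMod p, ∑ t : half p K, chi (aeval (t : K) (evp u)) = DD K u := by
    intro u
    unfold DD
    rw [← sum_coe_sort (half p K)]
  simp only [e5] at h
  have e2 : (fun u : Fin (n + 1) → ZMod p => (DD K u / (p : ℝ)) ^ m) = fun u => (1 / (p : ℝ) ^ m) * (DD K u) ^ m := by
    funext u
    rw [div_pow]
    ring
  rw [e2, av_mul]
  rcases Nat.eq_zero_or_pos m with h0 | h0
  · subst h0
    simp only [pow_zero, av_one, G]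
    norm_num
  have e3 : 1 / (p : ℝ) ^ m * av (fun u : Fin (n + 1) → ZMod p => (DD K u) ^ m) -
      G m * (√(1 - 1 / (p : ℝ) ^ 2) * √((1 - 1 / (p : ℝ)) / 2)) ^ m =
      (av (fun u : Fin (n + 1) → ZMod p => (DD K u) ^ m) -
        G m * √(1 - 1 / (p : ℝ) ^ 2) ^ m * (p * √((1 - 1 / (p : ℝ)) / 2)) ^ m) / (p : ℝ) ^ m := by
    field_simp
    ring
  rw [e3, abs_div, abs_of_pos (pow_pos hp0 m), div_le_div_iff₀ (pow_pos hp0 m) hp0]
  have h4 : (p : ℝ) ^ m = (p : ℝ) ^ (m - 1) * p := by rw [← pow_succ, Nat.sub_add_cancel h0]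
  have h5 : √((1 - 1 / (p : ℝ)) / 2) ≤ 1 := by
    rw [Real.sqrt_le_left zero_le_one]
    have : 0 < 1 / (p : ℝ) := by positivity
    linarith
  have h6 : (p * √((1 - 1 / (p : ℝ)) / 2)) ^ (m - 1) ≤ (p : ℝ) ^ (m - 1) := by
    apply pow_le_pow_left₀ (by positivity)
    calc p * √((1 - 1 / (p : ℝ)) / 2) ≤ p * 1 := mul_le_mul_of_nonneg_left h5 hp0.le
      _ = p := mul_one _
  calc _ ≤ C * m * (p * √((1 - 1 / (p : ℝ)) / 2)) ^ (m - 1) * p := mul_le_mul_of_nonneg_right h hp0.le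
    _ ≤ C * m * (p : ℝ) ^ (m - 1) * p := by
        apply mul_le_mul_of_nonneg_right _ hp0.le
        exact mul_le_mul_of_nonneg_left h6 (by positivity)
    _ = C * m * (p : ℝ) ^ m := by rw [h4]; ring

/-- the large primes -/
def ll : Filter Nat.Primes := comap (fun p => (p : ℕ)) atTop

lemma ll_ge (m : ℕ) : ∀ᶠ p : Nat.Primes in ll, m ≤ (p : ℕ) := by
  have : Tendsto (fun p : Nat.Primes => (p : ℕ)) ll atTop := tendsto_comap
  exact this.eventually (eventually_ge_atTop m)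

lemma ll_top : Tendsto (fun p : Nat.Primes => ((p : ℕ) : ℝ)) ll atTop :=
  tendsto_natCast_atTop_atTop.comp tendsto_comap

lemma ll_inv (C : ℝ) : Tendsto (fun p : Nat.Primes => C / ((p : ℕ) : ℝ)) ll (𝓝 0) :=
  Tendsto.div_atTop tendsto_const_nhds ll_top

lemma ll_sqrt (C : ℝ) : Tendsto (fun p : Nat.Primes => C / √((p : ℕ) : ℝ)) ll (𝓝 0) :=
  Tendsto.div_atTop tendsto_const_nhds (Real.tendsto_sqrt_atTop.comp ll_top)

lemma tend_of (f g e : Nat.Primes → ℝ) (c : ℝ) (h : ∀ᶠ p in ll, |f p - g p| ≤ e p) (he : Tendsto e ll (𝓝 0))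
    (hg : Tendsto g ll (𝓝 c)) : Tendsto f ll (𝓝 c) := by
  have h1 : Tendsto (fun p => f p - g p) ll (𝓝 0) := squeeze_zero_norm' h he
  have h2 := h1.add hg
  simp only [sub_add_cancel, zero_add] at h2
  exact h2

noncomputable instance ftG (p : ℕ) [Fact p.Prime] : Fintype (GaloisField p 2) := Fintype.ofFinite _

noncomputable instance deG (p : ℕ) [Fact p.Prime] : DecidableEq (GaloisField p 2) := Classical.decEq _

lemma cardG (p : ℕ) [Fact p.Prime] : Fintype.card (GaloisField p 2) = p ^ 2 := by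
  rw [← Nat.card_eq_fintype_card, GaloisField.card p 2 two_ne_zero]

/-- the joint moments over all polynomials -/
noncomputable def mon (n i j : ℕ) (p : Nat.Primes) : ℝ :=
  haveI : Fact (p : ℕ).Prime := ⟨p.2⟩
  av (fun u : Fin (n + 1) → ZMod p => (SS u / √((p : ℕ) : ℝ)) ^ i * (DD (GaloisField p 2) u / ((p : ℕ) : ℝ)) ^ j)

theorem mon_lim (n i j : ℕ) (hij : i + 2 * j ≤ n + 1) : Tendsto (mon n i j) ll (𝓝 (G i * (G j * √(1 / 2) ^ j))) := by
  obtain ⟨C₁, _, h1⟩ := mom_S n i (by omega)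
  obtain ⟨C₂, _, h2⟩ := mom_D n j (by omega)
  have k1 : Tendsto (fun p : Nat.Primes => haveI : Fact (p : ℕ).Prime := ⟨p.2⟩
      av (fun u : Fin (n + 1) → ZMod p => (SS u / √((p : ℕ) : ℝ)) ^ i)) ll (𝓝 (G i)) := by
    apply tend_of _ (fun p : Nat.Primes => G i * √(1 - 1 / ((p : ℕ) : ℝ)) ^ i) (fun p : Nat.Primes => C₁ / √((p : ℕ) : ℝ)) _ _ (ll_sqrt C₁)
    · have : Tendsto (fun p : Nat.Primes => G i * √(1 - 1 / ((p : ℕ) : ℝ)) ^ i) ll (𝓝 (G i * √(1 - 0) ^ i)) :=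
        ((((tendsto_const_nhds).sub (ll_inv 1)).sqrt).pow i).const_mul _
      simpa using this
    · filter_upwards [ll_ge 3] with p hp
      have : Fact (p : ℕ).Prime := ⟨p.2⟩
      exact h1 p hp
  have k2 : Tendsto (fun p : Nat.Primes => haveI : Fact (p : ℕ).Prime := ⟨p.2⟩
      av (fun u : Fin (n + 1) → ZMod p => (DD (GaloisField p 2) u / ((p : ℕ) : ℝ)) ^ j)) ll (𝓝 (G j * √(1 / 2) ^ j)) := by
    apply tend_of _ (fun p : Nat.Primes => G j * (√(1 - 1 / ((p : ℕ) : ℝ) ^ 2) * √((1 - 1 / ((p : ℕ) : ℝ)) / 2)) ^ j)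
      (fun p : Nat.Primes => C₂ / ((p : ℕ) : ℝ)) _ _ (ll_inv C₂)
    · have e : ∀ p : Nat.Primes, 1 / ((p : ℕ) : ℝ) ^ 2 = (1 / ((p : ℕ) : ℝ)) ^ 2 := fun p => by rw [div_pow, one_pow]
      simp only [e]
      have : Tendsto (fun p : Nat.Primes => G j * (√(1 - (1 / ((p : ℕ) : ℝ)) ^ 2) * √((1 - 1 / ((p : ℕ) : ℝ)) / 2)) ^ j) ll
          (𝓝 (G j * (√(1 - 0 ^ 2) * √((1 - 0) / 2)) ^ j)) :=
        ((((tendsto_const_nhds.sub ((ll_inv 1).pow 2)).sqrt).mul (((tendsto_const_nhds.sub (ll_inv 1)).div_const 2).sqrt)).pow j).const_mul _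
      simpa using this
    · filter_upwards [ll_ge 3] with p hp
      have : Fact (p : ℕ).Prime := ⟨p.2⟩
      exact h2 p (GaloisField p 2) (cardG p) hp
  have k3 := k1.mul k2
  refine k3.congr fun p => ?_
  have : Fact (p : ℕ).Prime := ⟨p.2⟩
  unfold mon
  have hj := joint (cardG p) (n + 1) i j hij (chi : ZMod p → ℝ) (chi : GaloisField p 2 → ℝ)
  have e1 : (fun u : Fin (n + 1) → ZMod p => (SS u / √((p : ℕ) : ℝ)) ^ i * (DD (GaloisField p 2) u / ((p : ℕ) : ℝ)) ^ j) =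
      fun u => (1 / (√((p : ℕ) : ℝ) ^ i * ((p : ℕ) : ℝ) ^ j)) * (SS u ^ i * (DD (GaloisField p 2) u) ^ j) := by
    funext u
    rw [div_pow, div_pow]
    ring
  have e2 : (fun u : Fin (n + 1) → ZMod p => (SS u / √((p : ℕ) : ℝ)) ^ i) = fun u => (1 / √((p : ℕ) : ℝ) ^ i) * SS u ^ i := by
    funext u
    rw [div_pow]
    ring
  have e3 : (fun u : Fin (n + 1) → ZMod p => (DD (GaloisField p 2) u / ((p : ℕ) : ℝ)) ^ j) =
      fun u => (1 / ((p : ℕ) : ℝ) ^ j) * (DD (GaloisField p 2) u) ^ j := by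
    funext u
    rw [div_pow]
    ring
  rw [e1, e2, e3, av_mul, av_mul, av_mul]
  unfold SS DD
  rw [hj]
  ring

open Classical in
/-- the joint moments over the squarefree polynomials of degree `n` -/
noncomputable def monG (n i j : ℕ) (p : Nat.Primes) : ℝ :=
  haveI : Fact (p : ℕ).Prime := ⟨p.2⟩
  av (fun u : Fin (n + 1) → ZMod p => if Gu u then (SS u / √((p : ℕ) : ℝ)) ^ i * (DD (GaloisField p 2) u / ((p : ℕ) : ℝ)) ^ j else 0)

theorem monG_lim (n i j : ℕ) (hij : i + 2 * j < 2 * ((n + 1) / 2)) :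
    Tendsto (monG n i j) ll (𝓝 (G i * (G j * √(1 / 2) ^ j))) := by
  classical
  apply tend_of _ (mon n i j) (fun p : Nat.Primes => ((2 * n : ℝ) ^ i * (n + 1 : ℝ) ^ j * (n + 1)) / ((p : ℕ) : ℝ) + 2 / √((p : ℕ) : ℝ)) _ _
    (by simpa using (ll_inv ((2 * n : ℝ) ^ i * (n + 1 : ℝ) ^ j * (n + 1))).add (ll_sqrt 2)) (mon_lim n i j (by omega))
  filter_upwards [ll_ge 3] with p hp
  have : Fact (p : ℕ).Prime := ⟨p.2⟩
  have hp0 : (0 : ℝ) < (p : ℕ) := by exact_mod_cast p.2.pos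
  obtain ⟨s, hs⟩ : ∃ s, s = √((p : ℕ) : ℝ) := ⟨_, rfl⟩
  have hs0 : 0 < s := by rw [hs]; exact Real.sqrt_pos.2 hp0
  have hs1 : 1 ≤ s := by
    rw [hs, Real.one_le_sqrt]
    exact_mod_cast p.2.one_le
  have hs2 : ((p : ℕ) : ℝ) = s ^ 2 := by rw [hs]; exact (Real.sq_sqrt hp0.le).symm
  unfold monG mon
  rw [← av_sub]
  have hpt : ∀ u : Fin (n + 1) → ZMod p,
      |(if Gu u then (SS u / √((p : ℕ) : ℝ)) ^ i * (DD (GaloisField p 2) u / ((p : ℕ) : ℝ)) ^ j else 0) -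
        (SS u / √((p : ℕ) : ℝ)) ^ i * (DD (GaloisField p 2) u / ((p : ℕ) : ℝ)) ^ j| ≤
      (2 * n : ℝ) ^ i * (n + 1 : ℝ) ^ j * (if Gu u then (0 : ℝ) else 1) + s ^ (i + 2 * j) * (if IsSq u then (1 : ℝ) else 0) := by
    intro u
    by_cases h : Gu u
    · rw [if_pos h, if_pos h, sub_self, abs_zero, mul_zero, zero_add]
      split_ifs
      · positivity
      · simp
    · rw [if_neg h, if_neg h, zero_sub, abs_neg, abs_mul, abs_pow, abs_pow, mul_one]
      by_cases h' : IsSq u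
      · rw [if_pos h', mul_one]
        have k1 : |SS u / √((p : ℕ) : ℝ)| ≤ s := by
          rw [← hs, abs_div, abs_of_pos hs0, div_le_iff₀ hs0, ← sq, ← hs2]
          exact SS_triv u
        have k2 : |DD (GaloisField p 2) u / ((p : ℕ) : ℝ)| ≤ s ^ 2 := by
          rw [abs_div, abs_of_pos hp0, div_le_iff₀ hp0, ← hs2, ← sq]
          exact DD_triv (cardG p) u
        have k3 : |SS u / √((p : ℕ) : ℝ)| ^ i * |DD (GaloisField p 2) u / ((p : ℕ) : ℝ)| ^ j ≤ s ^ i * (s ^ 2) ^ j :=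
          mul_le_mul (pow_le_pow_left₀ (abs_nonneg _) k1 i) (pow_le_pow_left₀ (abs_nonneg _) k2 j) (by positivity) (by positivity)
        have k4 : s ^ i * (s ^ 2) ^ j = s ^ (i + 2 * j) := by rw [← pow_mul, ← pow_add]
        have k5 : (0 : ℝ) ≤ (2 * n : ℝ) ^ i * (n + 1 : ℝ) ^ j := by positivity
        linarith
      · rw [if_neg h', mul_zero, add_zero]
        exact mul_le_mul (pow_le_pow_left₀ (abs_nonneg _) (SS_ns hp u h') i)
          (pow_le_pow_left₀ (abs_nonneg _) (DD_ns (cardG p) hp u h') j) (by positivity) (by positivity)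
  have h1 : ∀ f : (Fin (n + 1) → ZMod p) → ℝ, |av f| ≤ av (fun u => |f u|) := by
    intro f
    unfold av
    rw [abs_div, abs_of_nonneg (Nat.cast_nonneg _ : (0 : ℝ) ≤ (Fintype.card (Fin (n + 1) → ZMod p) : ℝ))]
    exact div_le_div_of_nonneg_right (abs_sum_le_sum_abs _ _) (Nat.cast_nonneg _)
  refine (h1 _).trans ((av_mono _ _ hpt).trans ?_)
  rw [av_add, av_mul, av_mul]
  have h2 : av (fun u : Fin (n + 1) → ZMod p => if Gu u then (0 : ℝ) else 1) ≤ ((n : ℝ) + 1) / (p : ℕ) := bad_av n p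
  have h3 : av (fun u : Fin (n + 1) → ZMod p => if IsSq u then (1 : ℝ) else 0) ≤ 2 * s ^ (2 * (n / 2 + 1)) / s ^ (2 * (n + 1)) := by
    have h4 := sq_count (p := p) hp n
    have h5 : ∑ u : Fin (n + 1) → ZMod p, (if IsSq u then (1 : ℝ) else 0) =
        ((univ : Finset (Fin (n + 1) → ZMod p)).filter (fun u => IsSq u)).card := by
      rw [← sum_filter, sum_const, nsmul_eq_mul, mul_one]
    unfold av
    rw [h5, Fintype.card_fun, Fintype.card_fin, ZMod.card]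
    push_cast
    rw [hs2] at h4 ⊢
    rw [← pow_mul]
    rw [← pow_mul] at h4
    exact div_le_div_of_nonneg_right h4 (by positivity)
  apply add_le_add
  · calc (2 * n : ℝ) ^ i * (n + 1 : ℝ) ^ j * av (fun u : Fin (n + 1) → ZMod p => if Gu u then (0 : ℝ) else 1) ≤
        (2 * n : ℝ) ^ i * (n + 1 : ℝ) ^ j * (((n : ℝ) + 1) / (p : ℕ)) := mul_le_mul_of_nonneg_left h2 (by positivity)
      _ = _ := by ring
  · calc s ^ (i + 2 * j) * av (fun u : Fin (n + 1) → ZMod p => if IsSq u then (1 : ℝ) else 0) ≤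
        s ^ (i + 2 * j) * (2 * s ^ (2 * (n / 2 + 1)) / s ^ (2 * (n + 1))) := mul_le_mul_of_nonneg_left h3 (by positivity)
      _ ≤ 2 / s := by
          rw [mul_div_assoc', div_le_div_iff₀ (by positivity) hs0]
          have h6 : s ^ (i + 2 * j) * (2 * s ^ (2 * (n / 2 + 1))) * s = 2 * s ^ (i + 2 * j + 2 * (n / 2 + 1) + 1) := by ring
          rw [h6]
          apply mul_le_mul_of_nonneg_left _ (by norm_num)
          apply pow_le_pow_right₀ hs1
          omega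
      _ = _ := by rw [hs]

end Pool.Agent.R318.SU
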