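import Pool.Agent.R318.SU.Ind

/-! # Pairs of conjugate points, and independence of the sums over the points of degrees `1` and `2` -/

set_option autoImplicit false
set_option linter.unusedSectionVars false

namespace Pool.Agent.R318.SU

open Finset Polynomial Pool.Agent.R318.ST

section

variable (p : ℕ) [Fact p.Prime] (K : Type) [Field K] [Fintype K] [DecidableEq K] [Algebra (ZMod p) K]

/-- one element of each pair of conjugate elements -/
noncomputable def half : Finset K := univ.filter (fun θ => Fintype.equivFin K θ < Fintype.equivFin K (θ ^ p))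

variable {p K}

lemma half_Hf (hK : Fintype.card K = p ^ 2) : Hf p (half p K) := by
  intro b hb b' hb' h
  rw [half, mem_filter] at hb hb'
  rw [← h, pow_p2 hK] at hb'
  exact lt_asymm hb.2 hb'.2

lemma Hf_mono {B B' : Finset K} (h : Hf p B') (hs : B ⊆ B') : Hf p B := fun b hb b' hb' => h b (hs hb) b' (hs hb')

lemma fixed_eq : univ.filter (fun θ : K => θ ^ p = θ) = univ.image (algebraMap (ZMod p) K) := by
  classical
  symm
  apply eq_of_subset_of_card_le
  · intro x hx
    rw [mem_image] at hx
    obtain ⟨a, _, rfl⟩ := hx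
    rw [mem_filter]
    refine ⟨mem_univ _, ?_⟩
    rw [← map_pow, ZMod.pow_card]
  · rw [card_image_of_injective _ (algebraMap (ZMod p) K).injective, card_univ, ZMod.card]
    by_contra h
    push Not at h
    have hp := (Fact.out (p := p.Prime)).one_lt
    have h1 : (X ^ p - X : K[X]).natDegree = p := FiniteField.X_pow_card_sub_X_natDegree_eq K hp
    have h2 : (X ^ p - X : K[X]) = 0 := by
      apply eq_zero_of_natDegree_lt_card_of_eval_eq_zero' _ (univ.filter (fun θ : K => θ ^ p = θ))
      · intro i hi
        rw [mem_filter] at hi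
        rw [eval_sub, eval_pow, eval_X, hi.2, sub_self]
      · rw [h1]
        exact h
    rw [h2, natDegree_zero] at h1
    omega

lemma sum_split (hK : Fintype.card K = p ^ 2) (F : K → ℝ) :
    ∑ θ, F θ = ∑ x : ZMod p, F (algebraMap (ZMod p) K x) + (∑ θ ∈ half p K, F θ + ∑ θ ∈ half p K, F (θ ^ p)) := by
  classical
  rw [← sum_filter_add_sum_filter_not univ (fun θ : K => θ ^ p = θ) F, fixed_eq,
    sum_image (fun x _ y _ h => (algebraMap (ZMod p) K).injective h)]
  congr 1
  rw [← sum_filter_add_sum_filter_not (univ.filter (fun θ : K => ¬ θ ^ p = θ))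
    (fun θ => Fintype.equivFin K θ < Fintype.equivFin K (θ ^ p)) F]
  congr 1
  · apply sum_congr _ fun _ _ => rfl
    ext θ
    rw [half, mem_filter, mem_filter, mem_filter]
    constructor
    · rintro ⟨_, h⟩
      exact ⟨mem_univ _, h⟩
    · rintro ⟨_, h⟩
      refine ⟨⟨mem_univ _, fun h' => ?_⟩, h⟩
      rw [h'] at h
      exact lt_irrefl _ h
  · apply sum_nbij' (fun θ => θ ^ p) (fun θ => θ ^ p)
    · intro θ hθ
      rw [mem_filter, mem_filter] at hθ
      rw [half, mem_filter, pow_p2 hK]
      refine ⟨mem_univ _, lt_of_le_of_ne (not_lt.1 hθ.2) ?_⟩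
      intro h
      exact hθ.1.2 ((Fintype.equivFin K).injective h)
    · intro θ hθ
      rw [half, mem_filter] at hθ
      rw [mem_filter, mem_filter, pow_p2 hK]
      refine ⟨⟨mem_univ _, ?_⟩, not_lt.2 hθ.2.le⟩
      intro h
      rw [← h] at hθ
      exact lt_irrefl _ hθ.2
    · intro θ _
      exact pow_p2 hK θ
    · intro θ _
      exact pow_p2 hK θ
    · intro θ _
      rw [pow_p2 hK]

lemma half_card (hK : Fintype.card K = p ^ 2) : ((half p K).card : ℝ) = ((p : ℝ) ^ 2 - p) / 2 := by
  have h := sum_split hK (fun _ : K => (1 : ℝ))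
  simp only [sum_const, card_univ, nsmul_eq_mul, mul_one, ZMod.card, hK] at h
  push_cast at h
  linarith

/-- the evaluation at a point of degree `2` -/
lemma av_pt (hK : Fintype.card K = p ^ 2) (d : ℕ) (hd : 2 ≤ d) (t : K) (ht : t ∈ half p K) (φ : K → ℝ) :
    av (fun u : Fin d → ZMod p => φ (aeval t (evp u))) = (∑ y, φ y) / Fintype.card K := by
  classical
  have hs := evm_surj hK d ∅ {t} (Hf_mono (half_Hf hK) (singleton_subset_iff.2 ht)) (by simpa using hd)
  obtain ⟨e, he⟩ : ∃ e : (Fin d → ZMod p) →+ K, ∀ u, e u = aeval t (evp u) := by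
    refine ⟨{ toFun := fun u => aeval t (evp u), map_zero' := ?_, map_add' := ?_ }, fun u => rfl⟩
    · have : evp (0 : Fin d → ZMod p) = 0 := by
        unfold evp
        simp
      rw [this, map_zero]
    · intro u v
      rw [evp_add, map_add]
  have hes : Function.Surjective e := by
    intro y
    obtain ⟨u, hu⟩ := hs (fun _ => 0, fun _ => y)
    refine ⟨u, ?_⟩
    rw [he]
    exact congrFun (congrArg Prod.snd hu) ⟨t, mem_singleton_self t⟩
  have h := av_hom e hes φ
  simp only [he] at h
  rw [h]
  rfl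

/-- the values at the points of degree `2` -/
theorem kwise2 (hK : Fintype.card K = p ^ 2) (d m : ℕ) (hm : 2 * m ≤ d) (ψ : K → ℝ) :
    KWise (fun (t : half p K) (u : Fin d → ZMod p) => ψ (aeval (t : K) (evp u))) m
      (fun j => (∑ y, ψ y ^ j) / Fintype.card K) := by
  classical
  intro T t ht j r hr
  have hexp : ∀ u : Fin d → ZMod p, (∑ s ∈ T, ψ (aeval (s : K) (evp u))) ^ r =
      ∑ σ ∈ Fintype.piFinset (fun _ : Fin r => T), ∏ i, ψ (aeval ((σ i : half p K) : K) (evp u)) := by
    intro u
    rw [← Finset.prod_univ_sum (fun _ : Fin r => T) (fun _ s => ψ (aeval ((s : half p K) : K) (evp u))), prod_const,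
      card_univ, Fintype.card_fin]
  have key : ∀ σ ∈ Fintype.piFinset (fun _ : Fin r => T),
      av (fun u : Fin d → ZMod p => ψ (aeval (t : K) (evp u)) ^ j * ∏ i, ψ (aeval ((σ i : half p K) : K) (evp u))) =
      (∑ y, ψ y ^ j) / Fintype.card K * av (fun u : Fin d → ZMod p => ∏ i, ψ (aeval ((σ i : half p K) : K) (evp u))) := by
    intro σ hσ
    rw [Fintype.mem_piFinset] at hσ
    have h1 := indep hK d ∅ ∅ {(t : K)} (univ.image (fun i => ((σ i : half p K) : K))) (disjoint_empty_left _) (by
      rw [disjoint_singleton_left, mem_image]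
      rintro ⟨i, _, hi⟩
      exact ht (Subtype.ext hi ▸ hσ i)) (Hf_mono (half_Hf hK) (by
      intro x hx
      rw [mem_union, mem_singleton, mem_image] at hx
      rcases hx with rfl | ⟨i, _, rfl⟩
      · exact t.2
      · exact (σ i).2)) (by
      have h2 : ({(t : K)} ∪ univ.image (fun i => ((σ i : half p K) : K))).card ≤ 1 + r := by
        refine (card_union_le _ _).trans ?_
        rw [card_singleton]
        have := card_image_le (s := univ) (f := fun i => ((σ i : half p K) : K))
        rw [card_univ, Fintype.card_fin] at this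
        omega
      rw [union_empty, card_empty]
      omega)
      (fun u => ψ (aeval (t : K) (evp u)) ^ j) (fun u => ∏ i, ψ (aeval ((σ i : half p K) : K) (evp u)))
      (fun u v _ hb => by
        rw [hb _ (mem_singleton_self _)])
      (fun u v _ hb => by
        apply prod_congr rfl
        intro i _
        rw [hb _ (mem_image_of_mem _ (mem_univ i))])
    rw [h1, av_pt hK d (by omega) (t : K) t.2 (fun y => ψ y ^ j)]
  simp only [hexp, mul_sum]
  rw [av_sum, av_sum, mul_sum]
  exact sum_congr rfl key

/-- the sums over the points of degree `1` and over those of degree `2` are independent -/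
theorem joint (hK : Fintype.card K = p ^ 2) (d i j : ℕ) (hij : i + 2 * j ≤ d) (ψ₁ : ZMod p → ℝ) (ψ₂ : K → ℝ) :
    av (fun u : Fin d → ZMod p => (∑ x, ψ₁ ((evp u).eval x)) ^ i * (∑ θ ∈ half p K, ψ₂ (aeval θ (evp u))) ^ j) =
    av (fun u : Fin d → ZMod p => (∑ x, ψ₁ ((evp u).eval x)) ^ i) *
      av (fun u : Fin d → ZMod p => (∑ θ ∈ half p K, ψ₂ (aeval θ (evp u))) ^ j) := by
  classical
  have hexp1 : ∀ u : Fin d → ZMod p, (∑ x, ψ₁ ((evp u).eval x)) ^ i =
      ∑ τ ∈ Fintype.piFinset (fun _ : Fin i => (univ : Finset (ZMod p))), ∏ k, ψ₁ ((evp u).eval (τ k)) := by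
    intro u
    rw [← Finset.prod_univ_sum (fun _ : Fin i => (univ : Finset (ZMod p))) (fun _ s => ψ₁ ((evp u).eval s)), prod_const,
      card_univ, Fintype.card_fin]
  have hexp2 : ∀ u : Fin d → ZMod p, (∑ θ ∈ half p K, ψ₂ (aeval θ (evp u))) ^ j =
      ∑ σ ∈ Fintype.piFinset (fun _ : Fin j => half p K), ∏ k, ψ₂ (aeval (σ k) (evp u)) := by
    intro u
    rw [← Finset.prod_univ_sum (fun _ : Fin j => half p K) (fun _ s => ψ₂ (aeval s (evp u))), prod_const,
      card_univ, Fintype.card_fin]
  simp only [hexp1, hexp2, sum_mul_sum]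
  rw [av_sum, av_sum, av_sum, sum_mul_sum]
  apply sum_congr rfl
  intro τ _
  rw [av_sum]
  apply sum_congr rfl
  intro σ hσ
  rw [Fintype.mem_piFinset] at hσ
  apply indep hK d (univ.image τ) ∅ ∅ (univ.image σ) (disjoint_empty_right _) (disjoint_empty_left _)
  · apply Hf_mono (half_Hf hK)
    intro x hx
    rw [empty_union, mem_image] at hx
    obtain ⟨k, _, rfl⟩ := hx
    exact hσ k
  · rw [union_empty, empty_union]
    have h1 := card_image_le (s := univ) (f := τ)
    have h2 := card_image_le (s := univ) (f := σ)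
    rw [card_univ, Fintype.card_fin] at h1 h2
    omega
  · intro u v ha _
    apply prod_congr rfl
    intro k _
    rw [ha _ (mem_image_of_mem _ (mem_univ k))]
  · intro u v _ hb
    apply prod_congr rfl
    intro k _
    rw [hb _ (mem_image_of_mem _ (mem_univ k))]

end

end Pool.Agent.R318.SU
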