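import Pool.Agent.R318.ST.Fld
import Pool.Agent.R318.ST.Mom

/-! # The values of a random polynomial at points of degrees `1` and `2` are independent -/

set_option autoImplicit false
set_option linter.unusedSectionVars false

namespace Pool.Agent.R318.SU

open Finset Polynomial Pool.Agent.R318.ST

lemma av_hom {V C : Type} [AddCommGroup V] [Fintype V] [AddCommGroup C] [Fintype C] (φ : V →+ C)
    (hφ : Function.Surjective φ) (F : C → ℝ) : av (fun u => F (φ u)) = av F := by
  classical
  have h1 : ∀ c : C, (univ.filter (fun u => φ u = c)).card = (univ.filter (fun u => φ u = 0)).card := fun c =>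
    AddMonoidHom.card_fiber_eq_of_mem_range φ (hφ c) (hφ 0)
  obtain ⟨N, hN⟩ : ∃ N, N = (univ.filter (fun u => φ u = 0)).card := ⟨_, rfl⟩
  have h2 : ∑ u, F (φ u) = N * ∑ c, F c := by
    rw [← sum_fiberwise univ φ (fun u => F (φ u)), mul_sum]
    apply sum_congr rfl
    intro c _
    rw [sum_congr rfl (g := fun _ => F c) (fun u hu => by rw [(mem_filter.1 hu).2]), sum_const, h1 c, nsmul_eq_mul, hN]
  have h3 : Fintype.card V = N * Fintype.card C := by
    rw [← card_univ, card_eq_sum_card_fiberwise (f := φ) (s := univ) (t := univ) (fun _ _ => mem_univ _),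
      sum_congr rfl (g := fun _ => N) (fun c _ => by rw [h1 c, hN]), sum_const, card_univ, smul_eq_mul, mul_comm]
  have hN0 : (N : ℝ) ≠ 0 := by
    have : 0 < Fintype.card V := Fintype.card_pos
    intro h
    have h' : N = 0 := by exact_mod_cast h
    rw [h3, h', zero_mul] at this
    exact lt_irrefl _ this
  unfold av
  rw [h2, h3]
  push_cast
  rw [mul_div_mul_left _ _ hN0]

lemma av_prod2 {C C' : Type} [Fintype C] [Fintype C'] (F : C → ℝ) (F' : C' → ℝ) :
    av (fun z : C × C' => F z.1 * F' z.2) = av F * av F' := by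
  unfold av
  rw [Fintype.sum_prod_type, ← Fintype.sum_mul_sum, Fintype.card_prod, div_mul_div_comm]
  push_cast
  rfl

/-- two functions which depend on the two components of a surjective homomorphism are independent -/
lemma av_indep {V C C' : Type} [AddCommGroup V] [Fintype V] [AddCommGroup C] [Fintype C] [AddCommGroup C'] [Fintype C']
    (φ : V →+ C) (φ' : V →+ C') (h : ∀ c c', ∃ u, φ u = c ∧ φ' u = c') (Φ Φ' : V → ℝ)
    (h1 : ∀ u v, φ u = φ v → Φ u = Φ v) (h2 : ∀ u v, φ' u = φ' v → Φ' u = Φ' v) :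
    av (fun u => Φ u * Φ' u) = av Φ * av Φ' := by
  classical
  choose s hs hs' using h
  have e1 : ∀ u, Φ u = Φ (s (φ u) 0) := fun u => h1 _ _ (hs _ _).symm
  have e2 : ∀ u, Φ' u = Φ' (s 0 (φ' u)) := fun u => h2 _ _ (hs' _ _).symm
  have k1 : av Φ = av (fun c => Φ (s c 0)) := by
    rw [← av_hom φ (fun c => ⟨s c 0, hs c 0⟩) (fun c => Φ (s c 0))]
    exact congrArg av (funext e1)
  have k2 : av Φ' = av (fun c => Φ' (s 0 c)) := by
    rw [← av_hom φ' (fun c => ⟨s 0 c, hs' 0 c⟩) (fun c => Φ' (s 0 c))]
    exact congrArg av (funext e2)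
  rw [k1, k2, ← av_prod2]
  rw [← av_hom (φ.prod φ') (fun z => ⟨s z.1 z.2, Prod.ext (hs _ _) (hs' _ _)⟩) (fun z => Φ (s z.1 0) * Φ' (s 0 z.2))]
  apply congrArg av
  funext u
  rw [e1 u, e2 u]
  rfl

section

variable {p : ℕ} [Fact p.Prime] {K : Type} [Field K] [Fintype K] [DecidableEq K] [Algebra (ZMod p) K]

lemma evp_add {F : Type} [Field F] {d : ℕ} (u v : Fin d → F) : evp (u + v) = evp u + evp v := by
  unfold evp
  rw [← sum_add_distrib]
  apply sum_congr rfl
  intro j _
  rw [Pi.add_apply, C_add, add_mul]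

/-- the values at the points of `A` and of `B` -/
noncomputable def evm (d : ℕ) (A : Finset (ZMod p)) (B : Finset K) : (Fin d → ZMod p) →+ (A → ZMod p) × (B → K) where
  toFun u := (fun a => (evp u).eval (a : ZMod p), fun b => aeval (b : K) (evp u))
  map_zero' := by
    have : evp (0 : Fin d → ZMod p) = 0 := by
      unfold evp
      simp
    rw [this]
    simp only [eval_zero, map_zero]
    rfl
  map_add' u v := by
    rw [evp_add]
    simp only [eval_add, map_add]
    rfl

lemma pow_p2 (hK : Fintype.card K = p ^ 2) (y : K) : (y ^ p) ^ p = y := by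
  rw [← pow_mul, ← sq, ← hK, FiniteField.pow_card]

lemma evp_deg {F : Type} [Field F] {d : ℕ} (hd : 1 ≤ d) (u : Fin d → F) : (evp u).natDegree < d := by
  unfold evp
  have : (∑ j : Fin d, C (u j) * X ^ (j : ℕ) : F[X]).natDegree ≤ d - 1 := by
    apply natDegree_sum_le_of_forall_le
    intro j _
    refine (natDegree_C_mul_X_pow_le _ _).trans ?_
    have := j.2
    omega
  omega

lemma frob_aeval (θ : K) (P : (ZMod p)[X]) : aeval (θ ^ p) P = (aeval θ P) ^ p := by
  have hc : CharP K p := charP_of_injective_algebraMap (algebraMap (ZMod p) K).injective p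
  have : ExpChar K p := ExpChar.prime (Fact.out)
  rw [aeval_eq_sum_range, aeval_eq_sum_range, sum_pow_char]
  apply sum_congr rfl
  intro j _
  rw [Algebra.smul_def, Algebra.smul_def, mul_pow, ← map_pow, ZMod.pow_card, ← pow_mul, ← pow_mul, mul_comm p j]

/-- `B` consists of elements of degree `2` that are not conjugate to each other -/
def Hf (p : ℕ) {K : Type} [Field K] (B : Finset K) : Prop := ∀ b ∈ B, ∀ b' ∈ B, b ^ p ≠ b'

lemma evm_inj (hK : Fintype.card K = p ^ 2) (d : ℕ) (A : Finset (ZMod p)) (B : Finset K) (hB : Hf p B)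
    (hd : A.card + 2 * B.card = d) : Function.Injective (evm (p := p) (K := K) d A B) := by
  classical
  rw [injective_iff_map_eq_zero]
  intro u hu
  rcases Nat.eq_zero_or_pos d with h0 | h0
  · subst h0
    funext j
    exact j.elim0
  have h1 : ∀ a ∈ A, (evp u).eval a = 0 := by
    intro a ha
    exact congrFun (congrArg Prod.fst hu) ⟨a, ha⟩
  have h2 : ∀ b ∈ B, aeval b (evp u) = 0 := by
    intro b hb
    exact congrFun (congrArg Prod.snd hu) ⟨b, hb⟩
  obtain ⟨P, hP⟩ : ∃ P, P = (evp u).map (algebraMap (ZMod p) K) := ⟨_, rfl⟩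
  obtain ⟨s, hs⟩ : ∃ s : Finset K, s = (A.image (algebraMap (ZMod p) K)) ∪ (B ∪ B.image (fun b => b ^ p)) := ⟨_, rfl⟩
  have hroot : ∀ i ∈ s, P.eval i = 0 := by
    intro i hi
    rw [hs, mem_union, mem_union, mem_image, mem_image] at hi
    rw [hP, eval_map_algebraMap]
    rcases hi with ⟨a, ha, rfl⟩ | hi | ⟨b, hb, rfl⟩
    · rw [aeval_algebraMap_apply, aeval_def, Algebra.algebraMap_self, eval₂_id, h1 a ha, map_zero]
    · exact h2 i hi
    · rw [frob_aeval, h2 b hb, zero_pow (Fact.out (p := p.Prime)).ne_zero]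
  have hA : ∀ a : ZMod p, (algebraMap (ZMod p) K a) ^ p = algebraMap (ZMod p) K a := by
    intro a
    rw [← map_pow, ZMod.pow_card]
  have hcard : s.card = d := by
    rw [hs, card_union_of_disjoint, card_union_of_disjoint, card_image_of_injective _ (algebraMap (ZMod p) K).injective,
      card_image_of_injOn]
    · omega
    · intro x _ y _ hxy
      rw [← pow_p2 hK x, ← pow_p2 hK y]
      exact congrArg (fun z => z ^ p) hxy
    · rw [disjoint_left]
      intro x hx hx'
      rw [mem_image] at hx'
      obtain ⟨b, hb, hbx⟩ := hx'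
      exact hB b hb x hx hbx
    · rw [disjoint_left]
      intro x hx hx'
      rw [mem_image] at hx
      obtain ⟨a, _, rfl⟩ := hx
      rw [mem_union, mem_image] at hx'
      rcases hx' with h | ⟨b, hb, h⟩
      · exact hB _ h _ h (hA a)
      · have h3 : b = algebraMap (ZMod p) K a := by
          rw [← pow_p2 hK b, h, hA]
        exact hB b hb b hb (by rw [h, h3])
  have hP0 : P = 0 := by
    apply eq_zero_of_natDegree_lt_card_of_eval_eq_zero' P s hroot
    rw [hcard, hP]
    exact (natDegree_map_le).trans_lt (evp_deg h0 u)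
  have hu0 : evp u = 0 := by
    rw [hP] at hP0
    exact (Polynomial.map_eq_zero _).1 hP0
  funext j
  rw [← coeff_evp u j, hu0, coeff_zero]
  rfl

lemma evm_surj (hK : Fintype.card K = p ^ 2) (d : ℕ) (A : Finset (ZMod p)) (B : Finset K) (hB : Hf p B)
    (hd : A.card + 2 * B.card ≤ d) : Function.Surjective (evm (p := p) (K := K) d A B) := by
  classical
  obtain ⟨N, hN⟩ : ∃ N, N = A.card + 2 * B.card := ⟨_, rfl⟩
  have h1 : Function.Bijective (evm (p := p) (K := K) N A B) := by
    rw [Fintype.bijective_iff_injective_and_card]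
    refine ⟨evm_inj hK N A B hB hN.symm, ?_⟩
    rw [Fintype.card_fun, Fintype.card_fin, ZMod.card, Fintype.card_prod, Fintype.card_fun, Fintype.card_fun, ZMod.card,
      hK, Fintype.card_coe, Fintype.card_coe, ← pow_mul, ← pow_add, hN]
  intro c
  obtain ⟨u, hu⟩ := h1.2 c
  rcases Nat.eq_zero_or_pos d with h0 | h0
  · have hN0 : N = 0 := by omega
    have hA : A = ∅ := card_eq_zero.1 (by omega)
    have hB' : B = ∅ := card_eq_zero.1 (by omega)
    subst hA
    subst hB'
    exact ⟨0, Subsingleton.elim _ _⟩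
  · refine ⟨fun j => (evp u).coeff j, ?_⟩
    have hdeg : (evp u).natDegree < d := by
      rcases Nat.eq_zero_or_pos N with h | h
      · subst h
        have : evp u = 0 := by
          unfold evp
          simp
        rw [this, natDegree_zero]
        exact h0
      · exact (evp_deg h u).trans_le (by omega)
    have h2 : evp (fun j : Fin d => (evp u).coeff j) = evp u := evp_coeff (evp u) hdeg
    rw [← hu]
    unfold evm
    simp only [AddMonoidHom.coe_mk, ZeroHom.coe_mk]
    rw [h2]

/-- independence -/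
theorem indep (hK : Fintype.card K = p ^ 2) (d : ℕ) (A A' : Finset (ZMod p)) (B B' : Finset K) (hA : Disjoint A A')
    (hB : Disjoint B B') (hH : Hf p (B ∪ B')) (hd : (A ∪ A').card + 2 * (B ∪ B').card ≤ d)
    (Φ Φ' : (Fin d → ZMod p) → ℝ)
    (h1 : ∀ u v, (∀ a ∈ A, (evp u).eval a = (evp v).eval a) → (∀ b ∈ B, aeval b (evp u) = aeval b (evp v)) → Φ u = Φ v)
    (h2 : ∀ u v, (∀ a ∈ A', (evp u).eval a = (evp v).eval a) → (∀ b ∈ B', aeval b (evp u) = aeval b (evp v)) → Φ' u = Φ' v) :
    av (fun u => Φ u * Φ' u) = av Φ * av Φ' := by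
  classical
  apply av_indep (evm (p := p) (K := K) d A B) (evm (p := p) (K := K) d A' B')
  · intro c c'
    obtain ⟨u, hu⟩ := evm_surj hK d (A ∪ A') (B ∪ B') hH hd
      (fun a => if h : (a : ZMod p) ∈ A then c.1 ⟨a, h⟩ else if h : (a : ZMod p) ∈ A' then c'.1 ⟨a, h⟩ else 0,
       fun b => if h : (b : K) ∈ B then c.2 ⟨b, h⟩ else if h : (b : K) ∈ B' then c'.2 ⟨b, h⟩ else 0)
    have k1 := fun a => congrFun (congrArg Prod.fst hu) a
    have k2 := fun b => congrFun (congrArg Prod.snd hu) b
    refine ⟨u, Prod.ext ?_ ?_, Prod.ext ?_ ?_⟩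
    · funext a
      have := k1 ⟨a, mem_union_left _ a.2⟩
      simp only [a.2, dif_pos] at this
      exact this
    · funext b
      have := k2 ⟨b, mem_union_left _ b.2⟩
      simp only [b.2, dif_pos] at this
      exact this
    · funext a
      have := k1 ⟨a, mem_union_right _ a.2⟩
      have hn : (a : ZMod p) ∉ A := fun h => disjoint_left.1 hA h a.2
      simp only [a.2, hn, dif_pos, dif_neg, not_false_iff] at this
      exact this
    · funext b
      have := k2 ⟨b, mem_union_right _ b.2⟩
      have hn : (b : K) ∉ B := fun h => disjoint_left.1 hB h b.2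
      simp only [b.2, hn, dif_pos, dif_neg, not_false_iff] at this
      exact this
  · intro u v huv
    apply h1
    · intro a ha
      exact congrFun (congrArg Prod.fst huv) ⟨a, ha⟩
    · intro b hb
      exact congrFun (congrArg Prod.snd huv) ⟨b, hb⟩
  · intro u v huv
    apply h2
    · intro a ha
      exact congrFun (congrArg Prod.fst huv) ⟨a, ha⟩
    · intro b hb
      exact congrFun (congrArg Prod.snd huv) ⟨b, hb⟩

end

end Pool.Agent.R318.SU
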